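import Pool.Agent.T6.H45.DR.Cl2

/-!
The first dynamical degree of a surjective endomorphism with a dense orbit which is given by
divide-and-conquer recursions.
-/

set_option autoImplicit false

namespace Pool.Agent.T6.H45.DR

open MvPolynomial Filter
open Pool.Agent.H251R6.SDD Pool.Agent.T6.H19.KS

variable {K k : Type} [Field K] [Field k] [Algebra K k] [Infinite k] {N : ℕ}
  {V : Set (PSpace k (Fin (N + 1)))} {f : PSpace k (Fin (N + 1)) → PSpace k (Fin (N + 1))}
  {x0 : PSpace k (Fin (N + 1))} {w : ℕ → Fin (N + 1) → k}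

theorem mem_orbit (hf : LocRep K V f) (hx : x0 ∈ V) (m : ℕ) : f^[m] x0 ∈ V :=
  (locRep_iterate hf m).1 x0 hx

theorem w_cone (hf : LocRep K V f) (hx : x0 ∈ V)
    (hw : ∀ m, ∃ h : w m ≠ 0, f^[m] x0 = Projectivization.mk k (w m) h) (m : ℕ) :
    w m ∈ cone V := by
  intro h
  obtain ⟨h', hm⟩ := hw m
  rw [← hm]
  exact mem_orbit hf hx m

theorem cd1 (hV : IsIrred V) (hf : LocRep K V f) (hx : x0 ∈ V)
    (hdense : ∀ Z, IsZariskiClosed Z → (∀ n, f^[n] x0 ∈ Z) → V ⊆ Z)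
    (hw : ∀ m, ∃ h : w m ≠ 0, f^[m] x0 = Projectivization.mk k (w m) h)
    (e : ℕ) (G : MvPolynomial (Fin (N + 1)) k) (hG : G.IsHomogeneous e) :
    (∀ m, eval (w m) G = 0) ↔ G ∈ vanishingIdeal k (cone V) := by
  constructor
  · intro h
    rw [form_iff hV.1 hG]
    have h1 : V ⊆ zeroLocus {G} := by
      refine hdense _ ⟨{G}, ?_, rfl⟩ fun n => ?_
      · intro G' hG'
        rw [Set.mem_singleton_iff.1 hG']
        exact ⟨e, hG⟩
      · intro G' hG'
        rw [Set.mem_singleton_iff.1 hG']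
        obtain ⟨h', hm⟩ := hw n
        obtain ⟨c, hc, hcw⟩ := exists_rep_smul h'
        have h2 := h n
        rw [← ae, hcw, aeval_smul hG, ← hm, ae] at h2
        exact (mul_eq_zero.1 h2).resolve_left (pow_ne_zero _ hc)
    exact fun y hy => h1 hy G rfl
  · intro h m
    rw [← ae]
    exact (mem_vanishingIdeal_iff.1 h) _ (w_cone hf hx hw m)

theorem cd3 (hf : LocRep K V f) (hx : x0 ∈ V)
    (hw : ∀ m, ∃ h : w m ≠ 0, f^[m] x0 = Projectivization.mk k (w m) h) {n e : ℕ}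
    {F : Fin (N + 1) → MvPolynomial (Fin (N + 1)) K} (hF : IsTuple K V (f^[n]) e F)
    (m : ℕ) (i j : Fin (N + 1)) :
    eval (w m) (map (algebraMap K k) (F i)) * w (m + n) j =
      eval (w m) (map (algebraMap K k) (F j)) * w (m + n) i := by
  have hev : ∀ i, eval (w m) (map (algebraMap K k) (F i)) = aeval (w m) (F i) := fun i => by
    rw [eval_map, ← aeval_def]
  rw [hev, hev]
  by_cases h0 : (fun i => aeval (w m) (F i)) = 0
  · have h1 := fun i => congrFun h0 i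
    simp only [Pi.zero_apply] at h1
    rw [h1, h1, zero_mul, zero_mul]
  · obtain ⟨h', hm⟩ := hw m
    obtain ⟨h'', hmn⟩ := hw (m + n)
    have h1 := hF.map_mk h' (by rw [← hm]; exact mem_orbit hf hx m) h0
    rw [← hm, ← Function.iterate_add_apply, add_comm n m, hmn,
      Projectivization.mk_eq_mk_iff'] at h1
    obtain ⟨a, ha⟩ := h1
    have h2 : ∀ i, w (m + n) i = a * aeval (w m) (F i) := fun i => (congrFun ha i).symm
    rw [h2, h2]
    ring

theorem cd4 (hV : IsIrred V) (hf : LocRep K V f) (hsurj : f '' V = V) {n e : ℕ}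
    {F : Fin (N + 1) → MvPolynomial (Fin (N + 1)) K} (hF : IsTuple K V (f^[n]) e F)
    (hF0 : ∃ x ∈ V, ∃ j, aeval x.rep (F j) ≠ 0)
    {c : ℕ} {H : MvPolynomial (Fin (N + 1)) k} (hH : H.IsHomogeneous c)
    (hHp : H ∉ vanishingIdeal k (cone V)) :
    aeval (fun i => map (algebraMap K k) (F i)) H ∉ vanishingIdeal k (cone V) := by
  intro hcon
  apply hHp
  rw [form_iff hV.1 hH]
  have h1 : aeval (Sum.elim X fun i => map (algebraMap K k) (F i))
      (rename Sum.inr H : MvPolynomial (Fin (N + 1) ⊕ Fin (N + 1)) k) =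
      aeval (fun i => map (algebraMap K k) (F i)) H := by
    rw [aeval_rename]
    rfl
  have h2 := graph_zero hV (locRep_iterate hf n) hF hF0 (inr_hom hH) (by rw [h1]; exact hcon)
  intro y hy
  obtain ⟨x, hx, rfl⟩ := surj_iterate hsurj n y hy
  have h3 := h2 x hx
  rw [aeval_rename] at h3
  rw [← ae]
  exact h3

/-- **Divide-and-conquer orbits have first dynamical degree one.** -/
theorem final (hVK : IsVarietyOver K V) (hf : IsSurjectiveEndomorphism K V f) (hx : x0 ∈ V)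
    (hdense : ∀ Z, IsZariskiClosed Z → (∀ n, f^[n] x0 ∈ Z) → V ⊆ Z)
    (hw : ∀ m, ∃ h : w m ≠ 0, f^[m] x0 = Projectivization.mk k (w m) h) {q : ℕ} (hq : 2 ≤ q)
    (hdr : ∀ j, DivR q fun m => w m j) {δ : ℝ} (hδ : IsFirstDynamicalDegree V f δ) : δ ≤ 1 := by
  classical
  have hV := hVK.2
  have hloc := locRep_of_endo hf
  have hp := prime_cone hV
  have hw0 : ∀ m, w m ≠ 0 := fun m => (hw m).1
  have htup : ∀ n, ∃ (e : ℕ) (F : Fin (N + 1) → MvPolynomial (Fin (N + 1)) K),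
      IsTuple K V (f^[n]) e F ∧ ∃ i, aeval x0.rep (F i) ≠ 0 := fun n =>
    (locRep_iterate hloc n).2 x0 hx
  obtain ⟨t, A, hA, ht⟩ := exists_t hV hloc hδ
  obtain ⟨C, κ, hC⟩ := graph_bound hq hp hw0 (cd1 hV hloc hx hdense hw) (by
    intro n
    obtain ⟨e, F, hF, i, hi⟩ := htup n
    refine ⟨e, fun i => map (algebraMap K k) (F i), fun i => (hF.1 i).map _,
      fun c H hH hHp => cd4 hV hloc hf.1 hF ⟨x0, hx, i, hi⟩ hH hHp, cd3 hloc hx hw hF⟩)
    (fam _ fun j => (hdr j).gr hq) hA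
  have hb : ∀ n b a, graphHilbert V (f^[n]) b a ≤ C * (n + 1) ^ κ * (b + 1 * a + 1) ^ t := by
    intro n b a
    obtain ⟨e, F, hF, i, hi⟩ := htup n
    have h1 := gh_le hV (locRep_iterate hloc n) hF ⟨x0, hx, i, hi⟩ b a
    have h2 := hC n e (fun i => map (algebraMap K k) (F i)) (fun i => (hF.1 i).map _) (by
      refine ⟨i, fun h => hi ?_⟩
      have h3 := (mem_vanishingIdeal_iff.1 h) x0.rep (rep_cone hx)
      rw [ae, eval_map, ← aeval_def] at h3
      exact h3) (cd3 hloc hx hw hF) b a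
    refine (h1.trans h2).trans (le_of_eq ?_)
    rw [one_mul, add_comm a b]
  have hfin : ∀ n, 1 ≤ n → ∀ Nq, HasIntersectionNumber V (f^[n]) Nq →
      (Nq : ℝ) ≤ ((t.factorial * C * 3 ^ t + 1 : ℕ) : ℝ) * ((n : ℝ) + 1) ^ κ * ((1 : ℕ) : ℝ) ^ n := by
    intro n hn Nq hNq
    have h1 := inter_le (E := 1) le_rfl (hb n) (ht n hn) hNq
    have h2 : (Nq : ℝ) ≤ t.factorial * (C * (n + 1) ^ κ) * 3 ^ t * 1 + 1 := by
      have := (Rat.cast_le (K := ℝ)).2 h1
      push_cast at this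
      exact this
    have h3 : (1 : ℝ) ≤ ((n : ℝ) + 1) ^ κ := one_le_pow₀ (by linarith [Nat.cast_nonneg (α := ℝ) n])
    push_cast
    rw [one_pow, mul_one]
    nlinarith
  have := fdd_le hδ (D := 1) le_rfl hfin
  simpa using this

end Pool.Agent.T6.H45.DR
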