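import Pool.Agent.T6.H45.DR.Ht

/-!
The arithmetic degree of an orbit with divide-and-conquer coordinates is one.
-/

set_option autoImplicit false

namespace Pool.Agent.T6.H45.DR

open Filter Height
open Pool.Agent.H251R6.SDD Pool.Agent.T6.H19.KS

variable {K : Type} [Field K] [NumberField K]

theorem logHeight_le {ι : Type} [Fintype ι] (w : ι → K) :
    logHeight w ≤ ∑ i, logHeight₁ (w i) := by
  classical
  have h1 := logHeight_fun_prod_eq (K := K) (α := ι) (ι := fun _ => Fin 2)
    (x := fun a => ![w a, 1]) (fun a h => one_ne_zero (congrFun h 1))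
  have h2 := logHeight_comp_le (fun (i : ι) (a : ι) => if a = i then (0 : Fin 2) else 1)
    (fun I : (a : ι) → Fin 2 => ∏ a, (![w a, 1] : Fin 2 → K) (I a))
  rw [h1] at h2
  have h3 : (fun I : (a : ι) → Fin 2 => ∏ a, (![w a, 1] : Fin 2 → K) (I a)) ∘
      (fun (i : ι) (a : ι) => if a = i then (0 : Fin 2) else 1) = w := by
    funext i
    simp only [Function.comp]
    rw [Finset.prod_eq_single i]
    · rw [if_pos rfl]; rfl
    · intro a _ ha
      rw [if_neg ha]; rfl
    · intro h; exact absurd (Finset.mem_univ i) h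
  rw [h3] at h2
  refine h2.trans (le_of_eq ?_)
  exact Finset.sum_congr rfl fun i _ => (logHeight₁_eq_logHeight (w i)).symm

theorem root_tendsto {g : ℕ → ℝ} {C κ : ℕ} (h : ∀ m : ℕ, g m ≤ C * ((m : ℝ) + 1) ^ κ) :
    Tendsto (fun m : ℕ => (max 1 (g m)) ^ ((1 : ℝ) / m)) atTop (nhds 1) := by
  have h1 : Tendsto (fun m : ℕ => ((m : ℝ) + 1) ^ (((κ : ℝ) + 1) / (1 * ((m : ℝ) + 1) + (-1))))
      atTop (nhds 1) :=
    (tendsto_rpow_div_mul_add ((κ : ℝ) + 1) 1 (-1) (by norm_num)).comp
      (tendsto_atTop_add_const_right _ _ tendsto_natCast_atTop_atTop)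
  refine tendsto_of_tendsto_of_tendsto_of_le_of_le' tendsto_const_nhds h1
    (Eventually.of_forall fun m => Real.one_le_rpow (le_max_left _ _) (by positivity)) ?_
  filter_upwards [eventually_ge_atTop C, eventually_ge_atTop 1] with m hm hm1
  have hm0 : (0 : ℝ) < m := by exact_mod_cast hm1
  have h2 : max 1 (g m) ≤ ((m : ℝ) + 1) ^ (κ + 1) := by
    refine max_le (one_le_pw m _) ((h m).trans ?_)
    rw [pow_succ, mul_comm]
    refine mul_le_mul_of_nonneg_left ?_ (by positivity)
    have : (C : ℝ) ≤ m := by exact_mod_cast hm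
    linarith
  calc (max 1 (g m)) ^ ((1 : ℝ) / m) ≤ (((m : ℝ) + 1) ^ (κ + 1)) ^ ((1 : ℝ) / m) :=
        Real.rpow_le_rpow (le_trans zero_le_one (le_max_left _ _)) h2 (by positivity)
    _ = ((m : ℝ) + 1) ^ (((κ : ℝ) + 1) / (1 * ((m : ℝ) + 1) + (-1))) := by
        rw [← Real.rpow_natCast, ← Real.rpow_mul (by positivity)]
        congr 1
        push_cast
        rw [mul_one_div, show (1 : ℝ) * ((m : ℝ) + 1) + (-1) = m by ring]

/-- **The arithmetic degree is one.** -/
theorem arith_one {k : Type} [Field k] [Algebra K k] {ι : Type} [Fintype ι]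
    {f : PSpace k ι → PSpace k ι} {x0 : PSpace k ι} {w : ℕ → ι → K}
    (hw : ∀ m, IsCoord (f^[m] x0) (w m)) {q : ℕ} (hq : 2 ≤ q)
    (hdr : ∀ j, DivR q fun m => w m j) :
    Tendsto (fun m : ℕ => (max 1 (Real.log (HK K (f^[m] x0)))) ^ ((1 : ℝ) / m)) atTop (nhds 1) := by
  obtain ⟨C, κ, hC⟩ := PH.family fun j => (hdr j).height hq
  refine root_tendsto (C := Fintype.card ι * C) (κ := κ) fun m => ?_
  rw [HK_eq (hw m), ← logHeight_eq_log_mulHeight]
  refine (logHeight_le (w m)).trans ((Finset.sum_le_sum fun j _ => hC j m).trans (le_of_eq ?_))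
  rw [Finset.sum_const, nsmul_eq_mul, Finset.card_univ]
  push_cast
  ring

theorem DivR.map {k : Type} [Field k] {K : Type} [Field K] (φ : K →+* k) {q : ℕ} {f : ℕ → K}
    (h : DivR q f) : DivR q fun n => φ (f n) := by
  induction h with
  | const c => exact .const _
  | congr _ h2 ih => exact ih.congr (h2.mono fun n hn => by simp only [hn])
  | add _ _ ih1 ih2 =>
    simp only [map_add]
    exact ih1.add ih2
  | mul _ _ ih1 ih2 =>
    simp only [map_mul]
    exact ih1.mul ih2
  | inv _ h2 ih =>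
    simp only [map_inv₀]
    exact ih.inv (h2.mono fun n hn => (map_ne_zero φ).2 hn)
  | @recursion r E a b y _ _ h3 j iha ihb =>
    refine DivR.recursion (E := E) (a := fun i j e n => φ (a i j e n))
      (b := fun i e n => φ (b i e n)) (y := fun n j => φ (y n j)) iha ihb ?_ j
    filter_upwards [h3] with n hn i
    obtain ⟨h4, h5⟩ := hn i
    have h6 : ∀ c : (Fin r → ℕ) → K, ∑ e ∈ E, φ (c e) * ∏ l, φ (y n l) ^ e l =
        φ (∑ e ∈ E, c e * ∏ l, y n l ^ e l) := by
      intro c
      simp only [map_sum, map_mul, map_prod, map_pow]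
    refine ⟨by rw [h6]; exact (map_ne_zero φ).2 h4, fun j => ?_⟩
    rw [h6, h6, ← map_mul, h5]

end Pool.Agent.T6.H45.DR
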