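import Pool.Agent.T6.H45.DR.Rt
import Pool.Agent.T6.H19.KS.Geo
import Pool.Agent.T6.H19.KS.Noe

/-!
Classical language: the Hilbert functions of the graphs of the iterates of a surjective
endomorphism of a projective variety.
-/

set_option autoImplicit false

namespace Pool.Agent.T6.H45.DR

open MvPolynomial Filter
open Pool.Agent.H251R6.SDD Pool.Agent.T6.H19.KS

variable {K k : Type} [Field K] [Field k] [Algebra K k] {N : ℕ}

theorem ae {ι : Type} (w : ι → k) (P : MvPolynomial ι k) : aeval w P = eval w P := by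
  rw [← coe_aeval_eq_eval]; rfl

theorem rep_cone {V : Set (PSpace k (Fin (N + 1)))} {y : PSpace k (Fin (N + 1))} (hy : y ∈ V) :
    y.rep ∈ cone V := by
  intro h
  rwa [Projectivization.mk_rep]

theorem form_iff {V : Set (PSpace k (Fin (N + 1)))} (hne : V.Nonempty) {e : ℕ}
    {P : MvPolynomial (Fin (N + 1)) k} (hP : P.IsHomogeneous e) :
    P ∈ vanishingIdeal k (cone V) ↔ ∀ y ∈ V, eval y.rep P = 0 := by
  rw [mem_vanishingIdeal_iff]
  constructor
  · intro h y hy
    rw [← ae]
    exact h _ (rep_cone hy)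
  · intro h w hw
    by_cases hw0 : w = 0
    · subst hw0
      by_cases he : e = 0
      · subst he
        obtain ⟨y, hy⟩ := hne
        rw [aeval_const_of_hom hP 0 y.rep, ae]
        exact h y hy
      · exact aeval_zero_of_hom hP he
    · obtain ⟨c, _, hc⟩ := exists_rep_smul hw0
      rw [hc, aeval_smul hP, ae, h _ (hw hw0), mul_zero]

theorem prime_cone [Infinite k] {V : Set (PSpace k (Fin (N + 1)))} (hV : IsIrred V) :
    (vanishingIdeal k (cone V)).IsPrime := by
  let _ := MvPolynomial.gradedAlgebra (σ := Fin (N + 1)) (R := k)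
  have hhom : (vanishingIdeal k (cone V)).IsHomogeneous
      (homogeneousSubmodule (Fin (N + 1)) k) := by
    intro i r hr
    have h1 := comp_mem_vanishing (K := k) hr i
    have h2 := decomposition.decompose'_apply (σ := Fin (N + 1)) (R := k) r i
    rw [← h2] at h1
    exact h1
  obtain ⟨y0, hy0⟩ := hV.1
  refine hhom.isPrime_of_homogeneous_mem_or_mem ?_ ?_
  · intro h
    have h1 : (1 : MvPolynomial (Fin (N + 1)) k) ∈ vanishingIdeal k (cone V) := by
      rw [h]; exact Submodule.mem_top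
    have h2 := (mem_vanishingIdeal_iff.1 h1) y0.rep (rep_cone hy0)
    rw [map_one] at h2
    exact one_ne_zero h2
  · rintro P Q ⟨a, hP⟩ ⟨b, hQ⟩ hPQ
    have hP' : P.IsHomogeneous a := hP
    have hQ' : Q.IsHomogeneous b := hQ
    rw [form_iff hV.1 hP', form_iff hV.1 hQ']
    have hPQ' := (form_iff hV.1 (hP'.mul hQ')).1 hPQ
    have hc : ∀ (e : ℕ) (R : MvPolynomial (Fin (N + 1)) k), R.IsHomogeneous e →
        IsZariskiClosed (zeroLocus {R} : Set (PSpace k (Fin (N + 1)))) := by
      intro e R hR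
      refine ⟨{R}, ?_, rfl⟩
      intro G hG
      rw [Set.mem_singleton_iff.1 hG]
      exact ⟨e, hR⟩
    rcases hV.2 _ _ (hc a P hP') (hc b Q hQ') (by
      intro y hy
      have h1 := hPQ' y hy
      rw [map_mul] at h1
      rcases mul_eq_zero.1 h1 with h2 | h2
      · left
        intro G hG
        rw [Set.mem_singleton_iff.1 hG]
        exact h2
      · right
        intro G hG
        rw [Set.mem_singleton_iff.1 hG]
        exact h2) with h | h
    · exact Or.inl fun y hy => h hy P rfl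
    · exact Or.inr fun y hy => h hy Q rfl

theorem surj_iterate {V : Set (PSpace k (Fin (N + 1)))}
    {f : PSpace k (Fin (N + 1)) → PSpace k (Fin (N + 1))} (hf : f '' V = V) (n : ℕ) :
    ∀ y ∈ V, ∃ x ∈ V, f^[n] x = y := by
  induction n with
  | zero => exact fun y hy => ⟨y, hy, rfl⟩
  | succ n ih =>
    intro y hy
    obtain ⟨z, hz, hzy⟩ := ih y hy
    rw [← hf] at hz
    obtain ⟨x, hx, rfl⟩ := hz
    exact ⟨x, hx, by rw [Function.iterate_succ_apply, hzy]⟩

section

variable [Infinite k] {V : Set (PSpace k (Fin (N + 1)))}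
  {f : PSpace k (Fin (N + 1)) → PSpace k (Fin (N + 1))}

theorem sbs_eq {F : Fin (N + 1) → MvPolynomial (Fin (N + 1)) K}
    (P : MvPolynomial (Fin (N + 1) ⊕ Fin (N + 1)) k) :
    sbs F P = aeval (Sum.elim X fun i => map (algebraMap K k) (F i)) P := rfl

theorem inr_hom {c : ℕ} {H : MvPolynomial (Fin (N + 1)) k} (hH : H.IsHomogeneous c) :
    IsWeightedHomogeneous (biWeight (Fin (N + 1)))
      (rename Sum.inr H : MvPolynomial (Fin (N + 1) ⊕ Fin (N + 1)) k) (0, c) := by
  intro ν hν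
  obtain ⟨u, rfl, hu⟩ := coeff_rename_ne_zero _ _ _ hν
  have h1 := hH hu
  rw [Finsupp.weight_apply, Finsupp.sum_fintype _ _ (by simp)] at h1
  rw [Finsupp.weight_apply, Finsupp.sum_mapDomain_index (by simp) (by simp [add_smul])]
  rw [Finsupp.sum_fintype _ _ (by simp)]
  simp only [biWeight, Sum.elim_inr]
  ext
  · rw [Prod.fst_sum]; simp
  · rw [Prod.snd_sum]
    rw [← h1]
    simp

theorem inl_hom {c : ℕ} {H : MvPolynomial (Fin (N + 1)) k} (hH : H.IsHomogeneous c) :
    IsWeightedHomogeneous (biWeight (Fin (N + 1)))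
      (rename Sum.inl H : MvPolynomial (Fin (N + 1) ⊕ Fin (N + 1)) k) (c, 0) := by
  intro ν hν
  obtain ⟨u, rfl, hu⟩ := coeff_rename_ne_zero _ _ _ hν
  have h1 := hH hu
  rw [Finsupp.weight_apply, Finsupp.sum_fintype _ _ (by simp)] at h1
  rw [Finsupp.weight_apply, Finsupp.sum_mapDomain_index (by simp) (by simp [add_smul])]
  rw [Finsupp.sum_fintype _ _ (by simp)]
  simp only [biWeight, Sum.elim_inl]
  ext
  · rw [Prod.fst_sum]
    rw [← h1]
    simp
  · rw [Prod.snd_sum]; simp

/-- forms which vanish on the graph, and forms -/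
theorem graph_zero (hV : IsIrred V) {g : PSpace k (Fin (N + 1)) → PSpace k (Fin (N + 1))}
    (hg : LocRep K V g) {e : ℕ} {F : Fin (N + 1) → MvPolynomial (Fin (N + 1)) K}
    (hF : IsTuple K V g e F) (hF0 : ∃ x ∈ V, ∃ j, aeval x.rep (F j) ≠ 0) {b a : ℕ}
    {Q : MvPolynomial (Fin (N + 1) ⊕ Fin (N + 1)) k}
    (hQ : IsWeightedHomogeneous (biWeight (Fin (N + 1))) Q (b, a))
    (h0 : aeval (Sum.elim X fun i => map (algebraMap K k) (F i)) Q ∈ vanishingIdeal k (cone V)) :
    ∀ x ∈ V, aeval (Sum.elim x.rep (g x).rep) Q = 0 := by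
  by_contra hcon
  push Not at hcon
  obtain ⟨x, hx, hx0⟩ := sbs_ne hV hg hQ hcon hF hF0
  apply hx0
  rw [sbs_eq, ← ae]
  exact (mem_vanishingIdeal_iff.1 h0) _ (rep_cone hx)

theorem gh_le (hV : IsIrred V) {g : PSpace k (Fin (N + 1)) → PSpace k (Fin (N + 1))}
    (hg : LocRep K V g) {e : ℕ} {F : Fin (N + 1) → MvPolynomial (Fin (N + 1)) K}
    (hF : IsTuple K V g e F) (hF0 : ∃ x ∈ V, ∃ j, aeval x.rep (F j) ≠ 0) (b a : ℕ)  :
    graphHilbert V g b a ≤
      hG (vanishingIdeal k (cone V)) (fun i => map (algebraMap K k) (F i)) b a := by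
  refine rank_le_of_ker _ _ _ ?_ fun Q hQ hQ0 => ?_
  · refine Module.Finite.iff_fg.2 (Submodule.FG.map _ ?_)
    have h1 : (homogeneousSubmodule (Fin (N + 1) ⊕ Fin (N + 1)) k (b + a)).FG :=
      homogeneousSubmodule_fg (σ := Fin (N + 1) ⊕ Fin (N + 1)) k _
    have h2 : FiniteDimensional k (homogeneousSubmodule (Fin (N + 1) ⊕ Fin (N + 1)) k (b + a)) :=
      Module.Finite.iff_fg.2 h1
    exact Module.Finite.iff_fg.1 (Submodule.finiteDimensional_of_le (BF_le b a))
  · rw [AlgHom.toLinearMap_apply, AlgHom.comp_apply, Ideal.Quotient.mkₐ_eq_mk,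
      Ideal.Quotient.eq_zero_iff_mem] at hQ0
    funext x
    exact graph_zero hV hg hF hF0 hQ hQ0 x.1 x.2

theorem hX_le (hV : IsIrred V) {g : PSpace k (Fin (N + 1)) → PSpace k (Fin (N + 1))}
    (hg : LocRep K V g) (e B : ℕ) :
    hX (vanishingIdeal k (cone V)) e ≤ graphHilbert V g e B := by
  classical
  obtain ⟨x0, hx0⟩ := hV.1
  obtain ⟨i0, hi0⟩ := Function.ne_iff.1 (g x0).rep_nonzero
  let Y : MvPolynomial (Fin (N + 1) ⊕ Fin (N + 1)) k := rename Sum.inr ((X i0) ^ B)
  have hY : IsWeightedHomogeneous (biWeight (Fin (N + 1))) Y (0, B) := by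
    refine inr_hom ?_
    have := (isHomogeneous_X k i0).pow B
    rwa [one_mul] at this
  let L : MvPolynomial (Fin (N + 1)) k →ₗ[k] (V → k) :=
    (evalGraph V g).comp ((LinearMap.mulRight k Y).comp (rename Sum.inl).toLinearMap)
  have hLmap : (homogeneousSubmodule (Fin (N + 1)) k e).map L ≤
      (weightedHomogeneousSubmodule k (biWeight (Fin (N + 1))) (e, B)).map (evalGraph V g) := by
    rintro _ ⟨P, hP, rfl⟩
    refine ⟨rename Sum.inl P * Y, ?_, rfl⟩
    have h1 := (inl_hom hP).mul hY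
    rw [Prod.mk_add_mk, add_zero, zero_add] at h1
    exact h1
  have hfd : FiniteDimensional k ((weightedHomogeneousSubmodule k (biWeight (Fin (N + 1)))
      (e, B)).map (evalGraph V g)) := by
    refine Module.Finite.iff_fg.2 (Submodule.FG.map _ ?_)
    have h1 : (homogeneousSubmodule (Fin (N + 1) ⊕ Fin (N + 1)) k (e + B)).FG :=
      homogeneousSubmodule_fg (σ := Fin (N + 1) ⊕ Fin (N + 1)) k _
    have h2 : FiniteDimensional k (homogeneousSubmodule (Fin (N + 1) ⊕ Fin (N + 1)) k (e + B)) :=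
      Module.Finite.iff_fg.2 h1
    exact Module.Finite.iff_fg.1 (Submodule.finiteDimensional_of_le (BF_le e B))
  have hfd' := Submodule.finiteDimensional_of_le hLmap
  refine le_trans ?_ (Submodule.finrank_mono hLmap)
  refine rank_le_of_ker _ _ _ hfd' fun P hP hP0 => ?_
  rw [AlgHom.toLinearMap_apply, Ideal.Quotient.mkₐ_eq_mk, Ideal.Quotient.eq_zero_iff_mem,
    form_iff hV.1 hP]
  have h1 : ∀ x ∈ V, aeval (Sum.elim x.rep (g x).rep) (rename Sum.inl P : MvPolynomial
      (Fin (N + 1) ⊕ Fin (N + 1)) k) = 0 ∨ aeval (Sum.elim x.rep (g x).rep) Y = 0 := by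
    intro x hx
    have h2 := congrFun hP0 ⟨x, hx⟩
    have h3 : L P ⟨x, hx⟩ = aeval (Sum.elim x.rep (g x).rep) (rename Sum.inl P * Y) := rfl
    rw [h3, map_mul] at h2
    exact mul_eq_zero.1 h2
  rcases irred_mul hV hg (inl_hom hP) hY h1 with h2 | h2
  · intro y hy
    have h3 := h2 y hy
    rw [aeval_rename] at h3
    rw [← ae]
    exact h3
  · exfalso
    have h3 := h2 x0 hx0
    simp only [Y, aeval_rename, map_pow, aeval_X, Function.comp, Sum.elim_inr] at h3
    exact pow_ne_zero _ hi0 h3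

end

end Pool.Agent.T6.H45.DR
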