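import Pool.Agent.T6.H45.DR.Cl

/-!
First dynamical degrees from bounds for the Hilbert functions of the graphs of the iterates.
-/

set_option autoImplicit false

namespace Pool.Agent.T6.H45.DR

open MvPolynomial Filter
open Pool.Agent.H251R6.SDD Pool.Agent.T6.H19.KS

variable {K k : Type} [Field K] [Field k] [Algebra K k] {N : ℕ}

/-- the Hilbert function of the graph is a polynomial of degree at most `r` -/
def Dat (V : Set (PSpace k (Fin (N + 1)))) (g : PSpace k (Fin (N + 1)) → PSpace k (Fin (N + 1)))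
    (r : ℕ) (c : ℕ → ℕ → ℚ) : Prop :=
  ∃ B : ℕ, ∀ b ≥ B, ∀ a ≥ B, (graphHilbert V g b a : ℚ) =
    ∑ i ∈ Finset.range (r + 1), ∑ j ∈ Finset.range (r + 1 - i), c i j * b ^ i * a ^ j

/-- the Hilbert function of the variety -/
theorem hX_poly [Infinite k] {V : Set (PSpace k (Fin (N + 1)))} (hV : IsIrred V)
    {g : PSpace k (Fin (N + 1)) → PSpace k (Fin (N + 1))} (hg : LocRep K V g) {r : ℕ}
    {c : ℕ → ℕ → ℚ} (h : Dat V g r c) :
    ∃ A : ℕ, ∀ e, hX (vanishingIdeal k (cone V)) e ≤ A * (e + 1) ^ r := by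
  obtain ⟨B, hB⟩ := h
  let S : ℚ := ∑ i ∈ Finset.range (r + 1), ∑ j ∈ Finset.range (r + 1 - i),
    |c i j| * (B : ℚ) ^ j
  obtain ⟨n, hn⟩ := exists_nat_gt S
  refine ⟨n + ∑ e ∈ Finset.range B, hX (vanishingIdeal k (cone V)) e, fun e => ?_⟩
  have h1 : 1 ≤ (e + 1) ^ r := Nat.one_le_pow _ _ (by omega)
  rcases Nat.lt_or_ge e B with he | he
  · calc hX (vanishingIdeal k (cone V)) e
        ≤ ∑ e ∈ Finset.range B, hX (vanishingIdeal k (cone V)) e :=
          Finset.single_le_sum (f := fun e => hX (vanishingIdeal k (cone V)) e)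
            (fun _ _ => Nat.zero_le _) (Finset.mem_range.2 he)
      _ ≤ n + ∑ e ∈ Finset.range B, hX (vanishingIdeal k (cone V)) e := Nat.le_add_left _ _
      _ ≤ _ := Nat.le_mul_of_pos_right _ h1
  · have h2 := hX_le hV hg e B
    have h3 : (graphHilbert V g e B : ℚ) ≤ S * ((e : ℚ) + 1) ^ r := by
      rw [hB e he B le_rfl, Finset.sum_mul]
      refine Finset.sum_le_sum (fun i hi => ?_)
      rw [Finset.sum_mul]
      refine Finset.sum_le_sum (fun j hj => ?_)
      rw [Finset.mem_range] at hi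
      have h4 : (e : ℚ) ^ i ≤ ((e : ℚ) + 1) ^ r := by
        calc (e : ℚ) ^ i ≤ ((e : ℚ) + 1) ^ i := pow_le_pow_left₀ (by positivity) (by linarith) _
          _ ≤ ((e : ℚ) + 1) ^ r := pow_le_pow_right₀ (by
            have : (0 : ℚ) ≤ e := by positivity
            linarith) (by omega)
      calc c i j * (e : ℚ) ^ i * (B : ℚ) ^ j ≤ |c i j| * (e : ℚ) ^ i * (B : ℚ) ^ j := by
            refine mul_le_mul_of_nonneg_right (mul_le_mul_of_nonneg_right (le_abs_self _) ?_) ?_ <;>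
              positivity
        _ ≤ |c i j| * ((e : ℚ) + 1) ^ r * (B : ℚ) ^ j := by
            refine mul_le_mul_of_nonneg_right (mul_le_mul_of_nonneg_left h4 (abs_nonneg _)) ?_
            positivity
        _ = |c i j| * (B : ℚ) ^ j * ((e : ℚ) + 1) ^ r := by ring
    have h4 : (hX (vanishingIdeal k (cone V)) e : ℚ) ≤ (n : ℚ) * ((e : ℚ) + 1) ^ r := by
      calc (hX (vanishingIdeal k (cone V)) e : ℚ) ≤ graphHilbert V g e B := by exact_mod_cast h2
        _ ≤ S * ((e : ℚ) + 1) ^ r := h3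
        _ ≤ n * ((e : ℚ) + 1) ^ r := by
            refine mul_le_mul_of_nonneg_right hn.le ?_
            positivity
    have h5 : hX (vanishingIdeal k (cone V)) e ≤ n * (e + 1) ^ r := by exact_mod_cast h4
    exact h5.trans (Nat.mul_le_mul_right _ (Nat.le_add_right _ _))

/-- a linear function which is bounded by another one -/
theorem lin_le {x y γ δ : ℚ} {s0 : ℕ} (h : ∀ s : ℕ, s0 ≤ s → x * s - γ ≤ y * s + δ) : x ≤ y := by
  by_contra hcon
  push Not at hcon
  obtain ⟨n, hn⟩ := exists_nat_gt ((γ + δ) / (x - y))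
  have h1 : 0 < x - y := by linarith
  rw [div_lt_iff₀ h1] at hn
  have h2 := h (n + s0) (by omega)
  push_cast at h2
  have h3 : (0 : ℚ) ≤ s0 := by positivity
  nlinarith

/-- **Intersection numbers from bounds for the Hilbert function of the graph.** -/
theorem inter_le [Infinite k] {V : Set (PSpace k (Fin (N + 1)))}
    {g : PSpace k (Fin (N + 1)) → PSpace k (Fin (N + 1))} {t C1 E : ℕ} (hE : 1 ≤ E)
    (hH : ∀ b a, graphHilbert V g b a ≤ C1 * (b + E * a + 1) ^ t)
    (ht : ∀ r c, Dat V g r c → t ≤ r) {Nq : ℚ} (hN : HasIntersectionNumber V g Nq) :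
    Nq ≤ t.factorial * C1 * 3 ^ t * E + 1 := by
  obtain ⟨r, c, hpoly, _, hNr⟩ := hN
  have htr := ht r c hpoly
  have hpos : (0 : ℚ) ≤ t.factorial * C1 * 3 ^ t * E := by positivity
  rcases Nat.eq_zero_or_pos r with hr | hr
  · rw [hNr, if_pos hr]
    linarith
  · obtain ⟨r', rfl⟩ := Nat.exists_eq_succ_of_ne_zero hr.ne'
    rw [Nat.succ_eq_add_one] at hpoly hNr htr
    rw [if_neg (Nat.succ_ne_zero r'), Nat.add_sub_cancel] at hNr
    obtain ⟨_, B', γ, hlow⟩ := graphHilbert_lower (V := V) (g := g) hpoly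
    -- the inequality for `a = s`, `b = B' + E s + r'`
    have hineq : ∀ s : ℕ, B' + r' ≤ s →
        ((E * s + 1 : ℕ) : ℚ) ^ r' * (Nq * s - γ) ≤
          r'.factorial * C1 * 3 ^ t * ((E * s + 1 : ℕ) : ℚ) ^ t := by
      intro s hs
      have hEs : s ≤ E * s := Nat.le_mul_of_pos_left _ hE
      have h1 := hlow (B' + (E * s + r')) (by omega) s (by omega)
      rw [Nat.add_sub_cancel_left, ← hNr] at h1
      have h2 : (graphHilbert V g (B' + (E * s + r')) s : ℚ) ≤
          C1 * 3 ^ t * ((E * s + 1 : ℕ) : ℚ) ^ t := by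
        have h3 := hH (B' + (E * s + r')) s
        have h4 : B' + (E * s + r') + E * s + 1 ≤ 3 * (E * s + 1) := by omega
        have h5 : graphHilbert V g (B' + (E * s + r')) s ≤ C1 * (3 * (E * s + 1)) ^ t :=
          h3.trans (Nat.mul_le_mul_left _ (Nat.pow_le_pow_left h4 _))
        calc (graphHilbert V g (B' + (E * s + r')) s : ℚ)
            ≤ ((C1 * (3 * (E * s + 1)) ^ t : ℕ) : ℚ) := by exact_mod_cast h5
          _ = _ := by
              push_cast
              rw [mul_pow]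
              ring
      have h6 : ((E * s + 1 : ℕ) : ℚ) ^ r' ≤ r'.factorial * ((E * s + r').choose r' : ℚ) := by
        have h7 : (E * s + 1) ^ r' ≤ r'.factorial * (E * s + r').choose r' := by
          have h8 := Nat.pow_succ_le_ascFactorial (E * s + 1) r'
          rw [Nat.ascFactorial_eq_factorial_mul_choose] at h8
          exact h8
        exact_mod_cast h7
      by_cases hneg : Nq * s - γ ≤ 0
      · calc ((E * s + 1 : ℕ) : ℚ) ^ r' * (Nq * s - γ) ≤ 0 :=
              mul_nonpos_of_nonneg_of_nonpos (by positivity) hneg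
          _ ≤ _ := by positivity
      · push Not at hneg
        calc ((E * s + 1 : ℕ) : ℚ) ^ r' * (Nq * s - γ)
            ≤ (r'.factorial * ((E * s + r').choose r' : ℚ)) * (Nq * s - γ) :=
              mul_le_mul_of_nonneg_right h6 hneg.le
          _ = r'.factorial * (((E * s + r').choose r' : ℚ) * (Nq * s - γ)) := by ring
          _ ≤ r'.factorial * (C1 * 3 ^ t * ((E * s + 1 : ℕ) : ℚ) ^ t) :=
              mul_le_mul_of_nonneg_left (h1.trans h2) (by positivity)
          _ = _ := by ring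
    rcases Nat.lt_or_ge r' t with hlt | hge
    · -- `t = r' + 1`
      have htr' : t = r' + 1 := by omega
      have h1 : Nq ≤ r'.factorial * C1 * 3 ^ t * E := by
        refine lin_le (γ := γ) (δ := r'.factorial * C1 * 3 ^ t) (s0 := B' + r') fun s hs => ?_
        have h2 := hineq s hs
        have h3 : (0 : ℚ) < ((E * s + 1 : ℕ) : ℚ) ^ r' := by positivity
        have h4 : ((E * s + 1 : ℕ) : ℚ) ^ t = ((E * s + 1 : ℕ) : ℚ) ^ r' * ((E * s + 1 : ℕ) : ℚ) := by
          rw [htr', pow_succ]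
        rw [h4, ← mul_assoc, mul_comm _ (((E * s + 1 : ℕ) : ℚ) ^ r'), mul_assoc] at h2
        have h5 := le_of_mul_le_mul_left h2 h3
        push_cast at h5
        linarith
      have h2 : (r'.factorial : ℚ) ≤ t.factorial := by
        exact_mod_cast Nat.factorial_le (by omega)
      have h3 : (r'.factorial : ℚ) * C1 * 3 ^ t * E ≤ t.factorial * C1 * 3 ^ t * E := by
        gcongr
      linarith
    · have h1 : Nq ≤ 0 := by
        refine lin_le (γ := γ) (δ := r'.factorial * C1 * 3 ^ t) (s0 := B' + r') fun s hs => ?_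
        have h2 := hineq s hs
        have h3 : (0 : ℚ) < ((E * s + 1 : ℕ) : ℚ) ^ r' := by positivity
        have h4 : ((E * s + 1 : ℕ) : ℚ) ^ t ≤ ((E * s + 1 : ℕ) : ℚ) ^ r' :=
          pow_le_pow_right₀ (by exact_mod_cast Nat.le_add_left 1 (E * s)) hge
        have h5 : ((E * s + 1 : ℕ) : ℚ) ^ r' * (Nq * s - γ) ≤
            ((E * s + 1 : ℕ) : ℚ) ^ r' * (r'.factorial * C1 * 3 ^ t) := by
          refine h2.trans ?_
          rw [mul_comm]
          exact mul_le_mul_of_nonneg_right h4 (by positivity)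
        have h6 := le_of_mul_le_mul_left h5 h3
        linarith
      linarith

/-- the limit -/
theorem fdd_le [Infinite k] {V : Set (PSpace k (Fin (N + 1)))}
    {f : PSpace k (Fin (N + 1)) → PSpace k (Fin (N + 1))} {δ : ℝ}
    (hδ : IsFirstDynamicalDegree V f δ) {C2 κ D : ℕ} (hD : 1 ≤ D)
    (h : ∀ n, 1 ≤ n → ∀ Nq, HasIntersectionNumber V (f^[n]) Nq →
      (Nq : ℝ) ≤ C2 * ((n : ℝ) + 1) ^ κ * (D : ℝ) ^ n) : δ ≤ D := by
  obtain ⟨Nn, hNn, hlim⟩ := hδ
  by_contra hcon
  push Not at hcon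
  obtain ⟨ρ, hρ1, hρ2⟩ := exists_between hcon
  have hD0 : (0 : ℝ) < D := by exact_mod_cast hD
  have hρ0 : 0 < ρ := hD0.trans hρ1
  have h1 := hlim.eventually (lt_mem_nhds hρ2)
  have hr : 1 < ρ / D := by rwa [one_lt_div hD0]
  have h2 := (tendsto_pow_const_div_const_pow_of_one_lt κ hr).comp (tendsto_add_atTop_nat 1)
  have hc : (0 : ℝ) < 1 / ((C2 + 1) * (ρ / D)) := by positivity
  obtain ⟨n, hn1, hn2, hn3⟩ := (h1.and ((h2.eventually (gt_mem_nhds hc)).and
    (eventually_ge_atTop 1))).exists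
  have hn0 : n ≠ 0 := by omega
  have hpos : 0 ≤ (Nn n : ℝ) := by
    exact_mod_cast inter_nonneg (hNn n hn3)
  have h3 : ρ ^ n < (Nn n : ℝ) := by
    calc ρ ^ n < (((Nn n : ℚ) : ℝ) ^ ((1 : ℝ) / n)) ^ n := pow_lt_pow_left₀ hn1 hρ0.le hn0
      _ = (Nn n : ℝ) := by
          rw [← Real.rpow_natCast, ← Real.rpow_mul hpos, one_div, inv_mul_cancel₀ (by
            exact_mod_cast hn0), Real.rpow_one]
  have h4 := h n hn3 (Nn n) (hNn n hn3)
  simp only [Function.comp] at hn2
  rw [div_lt_div_iff₀ (by positivity) (by positivity), one_mul] at hn2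
  have h5 : (ρ / D) ^ (n + 1) = (ρ / D) ^ n * (ρ / D) := pow_succ _ _
  rw [h5, ← mul_assoc] at hn2
  have h6 := lt_of_mul_lt_mul_right hn2 (by positivity)
  push_cast at h6
  have h7 : (ρ / D) ^ n * (D : ℝ) ^ n = ρ ^ n := by
    rw [← mul_pow, div_mul_cancel₀ _ hD0.ne']
  have h8 : ((n : ℝ) + 1) ^ κ * (C2 + 1) * (D : ℝ) ^ n < ρ ^ n := by
    rw [← h7]
    exact mul_lt_mul_of_pos_right h6 (by positivity)
  have h9 : (C2 : ℝ) * ((n : ℝ) + 1) ^ κ * (D : ℝ) ^ n ≤
      ((n : ℝ) + 1) ^ κ * (C2 + 1) * (D : ℝ) ^ n := by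
    have : (0 : ℝ) ≤ ((n : ℝ) + 1) ^ κ * (D : ℝ) ^ n := by positivity
    nlinarith
  linarith

/-- the choice of the exponent -/
theorem exists_t [Infinite k] {V : Set (PSpace k (Fin (N + 1)))} (hV : IsIrred V)
    {f : PSpace k (Fin (N + 1)) → PSpace k (Fin (N + 1))} (hf : LocRep K V f) {δ : ℝ}
    (hδ : IsFirstDynamicalDegree V f δ) :
    ∃ t A : ℕ, (∀ e, hX (vanishingIdeal k (cone V)) e ≤ A * (e + 1) ^ t) ∧
      ∀ n, 1 ≤ n → ∀ r c, Dat V (f^[n]) r c → t ≤ r := by
  classical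
  obtain ⟨Nn, hNn, -⟩ := hδ
  have hex : ∃ r, ∃ n, 1 ≤ n ∧ ∃ c, Dat V (f^[n]) r c := by
    obtain ⟨r, c, hpoly, _⟩ := hNn 1 le_rfl
    exact ⟨r, 1, le_rfl, c, hpoly⟩
  obtain ⟨n, hn, c, hdat⟩ := Nat.find_spec hex
  obtain ⟨A, hA⟩ := hX_poly hV (locRep_iterate hf n) hdat
  exact ⟨Nat.find hex, A, hA, fun n hn r c h => Nat.find_min' hex ⟨n, hn, c, h⟩⟩

end Pool.Agent.T6.H45.DR
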