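import Pool.Agent.T6.H45.DR.Mp
import Pool.Agent.TH8.OR.E

/-!
Density of the subsequences of a dense orbit; the Hilbert functions of the graphs of the iterates.
-/

set_option autoImplicit false

namespace Pool.Agent.T6.H45.DR

open MvPolynomial Filter
open Pool.Agent.TH8.OR
open Pool.Agent.H251R6.SDD (biWeight)

variable {k : Type} [Field k] {N : ℕ}

/-- comparison of ranks -/
theorem rank_le_of_ker {V W W' : Type} [AddCommGroup V] [Module k V] [AddCommGroup W] [Module k W]
    [AddCommGroup W'] [Module k W'] (U : Submodule k V) (f : V →ₗ[k] W) (g : V →ₗ[k] W')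
    (hg : FiniteDimensional k (U.map g)) (h : ∀ x ∈ U, g x = 0 → f x = 0) :
    Module.finrank k (U.map f) ≤ Module.finrank k (U.map g) := by
  classical
  by_cases hfd : FiniteDimensional k (U.map f)
  · let b := Module.finBasis k (U.map f)
    have hb := fun i => (b i).2
    choose w hw hwb using hb
    have hind : LinearIndependent k fun i => (⟨g (w i), ⟨w i, hw i, rfl⟩⟩ : U.map g) := by
      rw [Fintype.linearIndependent_iff]
      intro c hc
      have h1 : g (∑ i, c i • w i) = 0 := by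
        have h2 := congrArg (fun z : U.map g => (z : W')) hc
        simp only [AddSubmonoidClass.coe_finsetSum, Submodule.coe_smul, ZeroMemClass.coe_zero] at h2
        rw [map_sum, ← h2]
        exact Finset.sum_congr rfl fun i _ => by rw [map_smul]
      have h3 := h _ (Submodule.sum_mem _ fun i _ => U.smul_mem (c i) (hw i)) h1
      rw [map_sum] at h3
      have h4 : ∑ i, c i • b i = 0 := by
        apply Subtype.ext
        rw [AddSubmonoidClass.coe_finsetSum, ZeroMemClass.coe_zero, ← h3]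
        refine Finset.sum_congr rfl fun i _ => ?_
        rw [map_smul, Submodule.coe_smul, hwb]
      exact (Fintype.linearIndependent_iff.1 b.linearIndependent) c h4
    have := hind.fintype_card_le_finrank
    rwa [Fintype.card_fin] at this
  · rw [Module.finrank_of_not_finite hfd]
    exact Nat.zero_le _

variable {p : Ideal (MvPolynomial (Fin (N + 1)) k)} {x : ℕ → Fin (N + 1) → k}

theorem eval_smul_form {e : ℕ} {H : MvPolynomial (Fin (N + 1)) k} (hH : H.IsHomogeneous e) (c : k)
    (w : Fin (N + 1) → k) : eval (c • w) H = c ^ e * eval w H := by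
  rw [eval_eq', eval_eq', Finset.mul_sum]
  refine Finset.sum_congr rfl fun α hα => ?_
  have h2 : ∑ a, α a = e := by
    have := hH (mem_support_iff.1 hα)
    rw [← this, Finsupp.weight_apply, Finsupp.sum_fintype _ _ (by simp)]
    simp
  have h3 : ∏ a, (c • w) a ^ α a = c ^ e * ∏ a, w a ^ α a := by
    rw [← h2, ← Finset.prod_pow_eq_pow_sum, ← Finset.prod_mul_distrib]
    exact Finset.prod_congr rfl fun a _ => by rw [Pi.smul_apply, smul_eq_mul, mul_pow]
  rw [h3]; ring

theorem prop_of_rel {u v : Fin (N + 1) → k} (hv : v ≠ 0) (h : ∀ i j, u i * v j = u j * v i) :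
    ∃ c : k, u = c • v := by
  obtain ⟨i0, hi0⟩ := Function.ne_iff.1 hv
  have hi0' : v i0 ≠ 0 := hi0
  refine ⟨u i0 / v i0, funext fun i => ?_⟩
  rw [Pi.smul_apply, smul_eq_mul, div_mul_eq_mul_div, eq_div_iff hi0', h i i0]

/-- **The subsequences are dense.** -/
theorem sub_dense {q : ℕ} (hq : 2 ≤ q) (hp : p.IsPrime) (hx0 : ∀ m, x m ≠ 0)
    (hdense : ∀ (e : ℕ) (G : MvPolynomial (Fin (N + 1)) k), G.IsHomogeneous e →
      ((∀ m, eval (x m) G = 0) ↔ G ∈ p))
    (hrep : ∀ n, ∃ (e : ℕ) (G : Fin (N + 1) → MvPolynomial (Fin (N + 1)) k),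
      (∀ i, (G i).IsHomogeneous e) ∧
      (∀ (c : ℕ) (H : MvPolynomial (Fin (N + 1)) k), H.IsHomogeneous c → H ∉ p → aeval G H ∉ p) ∧
      ∀ m i j, eval (x m) (G i) * x (m + n) j = eval (x m) (G j) * x (m + n) i)
    (l e : ℕ) (H : MvPolynomial (Fin (N + 1)) k) (hH : H.IsHomogeneous e) (hHp : H ∉ p) :
    ∃ᶠ m in atTop, eval (x (q ^ l * m)) H ≠ 0 := by
  classical
  intro hcon
  have hev : ∀ᶠ m in atTop, eval (x (q ^ l * m)) H = 0 := by
    filter_upwards [hcon] with m hm
    exact not_not.1 hm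
  obtain ⟨m0, hm0⟩ := eventually_atTop.1 hev
  have hql : 0 < q ^ l := Nat.pow_pos (by omega)
  by_cases hnc : ∀ m i j, x m i * x 0 j = x m j * x 0 i
  · -- the variety is a point
    apply hHp
    refine (hdense e H hH).1 fun m => ?_
    obtain ⟨c, hc⟩ := prop_of_rel (hx0 0) (hnc m)
    obtain ⟨c', hc'⟩ := prop_of_rel (hx0 0) (hnc (q ^ l * m0))
    have h1 := hm0 m0 le_rfl
    rw [hc', eval_smul_form hH] at h1
    have hc'0 : c' ≠ 0 := by
      rintro rfl
      exact hx0 (q ^ l * m0) (by rw [hc', zero_smul])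
    rw [hc, eval_smul_form hH, (mul_eq_zero.1 h1).resolve_left (pow_ne_zero _ hc'0), mul_zero]
  · choose e' G hG hpull hrel using hrep
    have hPhom : (∏ j ∈ Finset.range (q ^ l), aeval (G j) H).IsHomogeneous
        (∑ j ∈ Finset.range (q ^ l), e' j * e) := IsHomogeneous.prod _ _ _ fun j _ => by
      have := hH.aeval (G j) (hG j)
      exact this
    have hPp : ∏ j ∈ Finset.range (q ^ l), aeval (G j) H ∉ p := by
      intro h
      obtain ⟨j, _, hj⟩ := hp.prod_mem_iff.1 h
      exact hpull j e H hH hHp hj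
    refine tail hp hx0 hdense hnc hPhom hPp ?_
    refine eventually_atTop.2 ⟨q ^ l * m0, fun m hm => ?_⟩
    -- the residue
    obtain ⟨j, hj, m', hm'⟩ : ∃ j < q ^ l, ∃ m', m + j = q ^ l * m' := by
      refine ⟨(q ^ l - m % q ^ l) % q ^ l, Nat.mod_lt _ hql, ?_⟩
      have h1 : m % q ^ l < q ^ l := Nat.mod_lt _ hql
      rcases Nat.eq_zero_or_pos (m % q ^ l) with h0 | h0
      · rw [h0, Nat.sub_zero, Nat.mod_self, add_zero]
        exact ⟨m / q ^ l, (Nat.mul_div_cancel' (Nat.dvd_of_mod_eq_zero h0)).symm⟩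
      · rw [Nat.mod_eq_of_lt (by omega)]
        refine ⟨m / q ^ l + 1, ?_⟩
        have h2 := Nat.div_add_mod m (q ^ l)
        rw [mul_add, mul_one]
        omega
    have hm0' : m0 ≤ m' := by
      by_contra hlt
      push Not at hlt
      have h1 : q ^ l * m' < q ^ l * m0 := Nat.mul_lt_mul_of_pos_left hlt hql
      omega
    have h2 : eval (x (m + j)) H = 0 := by rw [hm']; exact hm0 m' hm0'
    obtain ⟨c, hc⟩ := prop_of_rel (hx0 (m + j)) (fun i i' => hrel j m i i')
    have h3 : eval (x m) (aeval (G j) H) = 0 := by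
      have h4 : eval (x m) (aeval (G j) H) = eval (fun i => eval (x m) (G j i)) H := by
        rw [← coe_aeval_eq_eval, ← coe_aeval_eq_eval]
        simp only [RingHom.coe_coe]
        rw [← AlgHom.comp_apply, comp_aeval]
      rw [h4, hc, eval_smul_form hH, h2, mul_zero]
    rw [map_prod]
    exact Finset.prod_eq_zero (Finset.mem_range.2 hj) h3

/-- bounds for `K ^ l` -/
theorem pow_bound {q K : ℕ} (hq : 2 ≤ q) (hK : 1 ≤ K) (n : ℕ) :
    ∃ l, n < q ^ l ∧ K ^ l ≤ K * (n + 1) ^ K := by
  refine ⟨Nat.log q n + 1, Nat.lt_pow_succ_log_self (by omega) n, ?_⟩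
  rw [pow_succ, mul_comm]
  refine Nat.mul_le_mul_left _ ?_
  have h1 : K ≤ q ^ K := by
    have h2 : K < 2 ^ K := Nat.lt_two_pow_self
    exact h2.le.trans (Nat.pow_le_pow_left hq K)
  calc K ^ Nat.log q n ≤ (q ^ K) ^ Nat.log q n := Nat.pow_le_pow_left h1 _
    _ = (q ^ Nat.log q n) ^ K := by rw [← pow_mul, ← pow_mul, mul_comm]
    _ ≤ (n + 1) ^ K := by
        refine Nat.pow_le_pow_left ?_ K
        rcases Nat.eq_zero_or_pos n with h | h
        · rw [h]; simp
        · exact (Nat.pow_log_le_self q (by omega)).trans (by omega)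

end Pool.Agent.T6.H45.DR
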