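import Pool.Agent.T6.H45.KN.Fl

/-!
Upper bounds for Hilbert functions of finitely generated subalgebras of a field, with the
transcendence degree as exponent.
-/

set_option autoImplicit false

namespace Pool.Agent.T6.H45.DR

open Submodule Finset Pool.Agent.T6.H45.KN
open scoped IntermediateField

section pow

variable {k K : Type} [Field k] [Field K] [Algebra k K]

/-- the span of `1` and `S` -/
def MSp (k : Type) {K : Type} [Field k] [Field K] [Algebra k K] (S : Finset K) : Submodule k K :=
  span k (insert 1 (S : Set K))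

theorem one_MSp (S : Finset K) : (1 : K) ∈ MSp k S := subset_span (Set.mem_insert _ _)

theorem mem_MSp {S : Finset K} {x : K} (h : x ∈ S) : x ∈ MSp k S :=
  subset_span (Set.mem_insert_of_mem _ h)

theorem fd_MSp (S : Finset K) : FiniteDimensional k (MSp k S) :=
  FiniteDimensional.span_of_finite k ((S.finite_toSet).insert 1)

theorem fd_pow {M : Submodule k K} (h : FiniteDimensional k M) (n : ℕ) :
    FiniteDimensional k (M ^ n : Submodule k K) := by
  have h1 : M.FG := Module.Finite.iff_fg.1 h
  exact Module.Finite.iff_fg.2 (h1.pow n)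

/-- elements of the algebra generated by `S` -/
theorem mem_adjoin {S : Finset K} {x : K} (hx : x ∈ Algebra.adjoin k (S : Set K)) :
    ∃ N, x ∈ (MSp k S) ^ N := by
  induction hx using Algebra.adjoin_induction with
  | mem x hx => exact ⟨1, by rw [pow_one]; exact mem_MSp hx⟩
  | algebraMap r =>
    refine ⟨0, ?_⟩
    rw [pow_zero]
    exact Submodule.algebraMap_mem r
  | add x y _ _ hx hy =>
    obtain ⟨a, ha⟩ := hx
    obtain ⟨b, hb⟩ := hy
    exact ⟨max a b, add_mem (pm (one_MSp S) (le_max_left _ _) ha) (pm (one_MSp S) (le_max_right _ _) hb)⟩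
  | mul x y _ _ hx hy =>
    obtain ⟨a, ha⟩ := hx
    obtain ⟨b, hb⟩ := hy
    exact ⟨a + b, mm rfl ha hb⟩

theorem MSp_insert [DecidableEq K] (S : Finset K) (s : K) :
    MSp k (insert s S) = MSp k S ⊔ span k {s} := by
  rw [MSp, MSp, Finset.coe_insert, ← span_union, Set.insert_comm, Set.union_comm]
  rfl

/-- the number of monomials -/
theorem rank_pow (S : Finset K) (n : ℕ) :
    Module.finrank k ((MSp k S) ^ n : Submodule k K) ≤ (n + 1) ^ S.card := by
  classical
  induction S using Finset.induction_on with
  | empty =>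
    have h1 : MSp k (∅ : Finset K) = 1 := by
      rw [MSp, Finset.coe_empty, insert_empty_eq, Submodule.one_eq_span]
    rw [h1, one_pow, Finset.card_empty, pow_zero, Submodule.one_eq_span]
    exact (finrank_span_singleton (K := k) (one_ne_zero (α := K))).le
  | insert s S hs ih =>
    rw [MSp_insert, Finset.card_insert_of_notMem hs]
    have hfd := fd_pow (fd_MSp (k := k) S) n
    let f : (Fin (n + 1) → ((MSp k S) ^ n : Submodule k K)) →ₗ[k] K :=
      { toFun := fun a => ∑ j, (a j : K) * s ^ (j : ℕ)
        map_add' := fun a b => by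
          simp only [Pi.add_apply, Submodule.coe_add, add_mul, sum_add_distrib]
        map_smul' := fun c a => by
          simp only [Pi.smul_apply, Submodule.coe_smul, smul_mul_assoc, Finset.smul_sum,
            RingHom.id_apply] }
    have hle : (MSp k S ⊔ span k {s}) ^ n ≤ LinearMap.range f := by
      intro x hx
      obtain ⟨a, ha, rfl⟩ := sup_pow s n hx
      refine ⟨fun j => ⟨a j, pm (one_MSp S) (Nat.sub_le _ _) (ha j (by have := j.2; omega))⟩, ?_⟩
      change ∑ j : Fin (n + 1), a j * s ^ (j : ℕ) = _
      exact (Finset.sum_range (fun j => a j * s ^ j)).symm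
    calc Module.finrank k ((MSp k S ⊔ span k {s}) ^ n : Submodule k K)
        ≤ Module.finrank k (LinearMap.range f) := Submodule.finrank_mono hle
      _ ≤ Module.finrank k (Fin (n + 1) → ((MSp k S) ^ n : Submodule k K)) :=
          LinearMap.finrank_range_le f
      _ = (n + 1) * Module.finrank k ((MSp k S) ^ n : Submodule k K) := by
          rw [Module.finrank_pi_fintype]
          simp
      _ ≤ (n + 1) * (n + 1) ^ S.card := Nat.mul_le_mul_left _ ih
      _ = (n + 1) ^ (S.card + 1) := by rw [pow_succ, mul_comm]

/-- the rank of a product -/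
theorem rank_mul {M N : Submodule k K} (hM : FiniteDimensional k M) (hN : FiniteDimensional k N) :
    Module.finrank k (M * N : Submodule k K) ≤ Module.finrank k M * Module.finrank k N := by
  rw [← Submodule.mulMap_range, ← Module.finrank_tensorProduct (R := k)]
  exact LinearMap.finrank_range_le _

/-- multiplication by a nonzero element -/
theorem rank_le_of_mul {M N : Submodule k K} (hN : FiniteDimensional k N) {w : K} (hw : w ≠ 0)
    (h : ∀ x ∈ M, w * x ∈ N) : Module.finrank k M ≤ Module.finrank k N := by
  let f : M →ₗ[k] N :=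
    { toFun := fun x => ⟨w * x, h x x.2⟩
      map_add' := fun x y => by
        ext
        simp [mul_add]
      map_smul' := fun c x => by
        ext
        simp }
  refine LinearMap.finrank_le_finrank_of_injective (f := f) ?_
  intro x y hxy
  have h1 : w * (x : K) = w * y := congrArg (fun z : N => (z : K)) hxy
  exact Subtype.ext (mul_left_cancel₀ hw h1)

end pow

/-- common denominators -/
theorem common {k K : Type} [Field k] [Field K] [Algebra k K] (τ : Finset K)
    (A : Finset (IntermediateField.adjoin k (τ : Set K))) :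
    ∃ g : K, g ≠ 0 ∧ ∃ N, g ∈ (MSp k τ) ^ N ∧ ∀ c ∈ A, g * (c : K) ∈ (MSp k τ) ^ N := by
  classical
  induction A using Finset.induction_on with
  | empty =>
    refine ⟨1, one_ne_zero, 0, ?_, fun c hc => absurd hc (Finset.notMem_empty _)⟩
    rw [pow_zero]
    exact Submodule.one_le.1 le_rfl
  | insert c A _ ih =>
    obtain ⟨g, hg, N, hgN, hN⟩ := ih
    obtain ⟨r, hr, s, hs, hrs⟩ := IntermediateField.mem_adjoin_iff_div.1 c.2
    obtain ⟨a, ha⟩ := mem_adjoin hr
    obtain ⟨b, hb⟩ := mem_adjoin hs
    by_cases hs0 : s = 0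
    · refine ⟨g, hg, N, hgN, fun c' hc' => ?_⟩
      rcases Finset.mem_insert.1 hc' with rfl | h
      · rw [hrs, hs0, div_zero, mul_zero]
        exact zero_mem _
      · exact hN c' h
    · refine ⟨g * s, mul_ne_zero hg hs0, N + a + b, ?_, fun c' hc' => ?_⟩
      · exact pm (one_MSp τ) (by omega) (mm rfl hgN hb)
      · rcases Finset.mem_insert.1 hc' with rfl | h
        · rw [hrs, mul_assoc, mul_div_cancel₀ _ hs0]
          exact pm (one_MSp τ) (by omega) (mm rfl hgN ha)
        · rw [show g * s * (c' : K) = (g * c') * s by ring]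
          exact pm (one_MSp τ) (by omega) (mm rfl (hN c' h) hb)

/-- the elements of `M` are algebraic over a field generated by `t` elements -/
def TD (k : Type) {K : Type} [Field k] [Field K] [Algebra k K] (M : Set K) (t : ℕ) : Prop :=
  ∃ τ : Finset K, τ.card ≤ t ∧ ∀ x ∈ M, IsAlgebraic (IntermediateField.adjoin k (τ : Set K)) x

/-- **The Hilbert function of a finitely generated algebra in a field.** -/
theorem hilb {k K : Type} [Field k] [Field K] [Algebra k K] (S : Finset K) {t : ℕ}
    (h : TD k (S : Set K) t) :
    ∃ C : ℕ, ∀ n, Module.finrank k ((MSp k S) ^ n : Submodule k K) ≤ C * (n + 1) ^ t := by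
  classical
  obtain ⟨τ, hτ, halg⟩ := h
  let L := IntermediateField.adjoin k (τ : Set K)
  let E : IntermediateField L K := IntermediateField.adjoin L (S : Set K)
  have hfd : FiniteDimensional L E :=
    IntermediateField.finiteDimensional_adjoin (fun x hx => (halg x hx).isIntegral)
  let θ := Module.finBasis L E
  let D := Module.finrank L E
  have hD : 0 < D := Module.finrank_pos
  -- the structure constants
  let e : K → E := fun s => if hs : s ∈ E then ⟨s, hs⟩ else 0
  have he : ∀ s ∈ insert (1 : K) S, (e s : K) = s := by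
    intro s hs
    have hsE : s ∈ E := by
      rcases Finset.mem_insert.1 hs with rfl | h
      · exact one_mem _
      · exact IntermediateField.subset_adjoin _ _ h
    simp only [e, dif_pos hsE]
  let A : Finset L := ((insert (1 : K) S) ×ˢ (Finset.univ : Finset (Fin D × Fin D))).image
    fun p => θ.repr (e p.1 * θ p.2.1) p.2.2
  obtain ⟨g, hg, N, hgN, hN⟩ := common τ A
  let Θ : Submodule k K := span k (Set.range fun j : Fin D => (θ j : K))
  have hΘfd : FiniteDimensional k Θ := FiniteDimensional.span_of_finite k (Set.finite_range _)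
  have hΘ : Module.finrank k Θ ≤ D := by
    have := finrank_range_le_card (R := k) (fun j : Fin D => (θ j : K))
    rwa [Fintype.card_fin] at this
  -- one factor
  have h1 : ∀ u ∈ MSp k S, ∀ v ∈ Θ, g * u * v ∈ (MSp k τ) ^ N * Θ := by
    intro u hu v hv
    refine Submodule.span_induction ?_ ?_ ?_ ?_ hu
    · intro s hs
      have hs' : s ∈ insert (1 : K) S := by
        rcases hs with rfl | hs
        · exact Finset.mem_insert_self _ _
        · exact Finset.mem_insert_of_mem hs
      refine Submodule.span_induction ?_ ?_ ?_ ?_ hv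
      · rintro _ ⟨j, rfl⟩
        have h2 : s * (θ j : K) = ∑ l, ((θ.repr (e s * θ j) l : L) : K) * (θ l : K) := by
          have h3 := congrArg (fun z : E => (z : K)) (θ.sum_repr (e s * θ j))
          have h4 : ((e s * θ j : E) : K) = s * (θ j : K) := by
            rw [MulMemClass.coe_mul, he s hs']
          rw [h4] at h3
          rw [← h3, AddSubmonoidClass.coe_finsetSum]
          refine Finset.sum_congr rfl fun l _ => ?_
          rw [IntermediateField.coe_smul, IntermediateField.smul_def]
          rfl
        change g * s * (θ j : K) ∈ _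
        rw [mul_assoc, h2, Finset.mul_sum]
        refine Submodule.sum_mem _ fun l _ => ?_
        rw [← mul_assoc]
        refine mul_mem_mul (hN _ ?_) (subset_span ⟨l, rfl⟩)
        exact Finset.mem_image.2 ⟨(s, (j, l)), Finset.mem_product.2 ⟨hs', Finset.mem_univ _⟩, rfl⟩
      · rw [mul_zero]; exact zero_mem _
      · intro x y _ _ hx hy
        rw [mul_add]; exact add_mem hx hy
      · intro c x _ hx
        rw [mul_smul_comm]; exact smul_mem _ _ hx
    · rw [mul_zero, zero_mul]; exact zero_mem _
    · intro x y _ _ hx hy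
      rw [mul_add, add_mul]; exact add_mem hx hy
    · intro c x _ hx
      rw [mul_smul_comm, smul_mul_assoc]; exact smul_mem _ _ hx
  have h2 : ∀ n, ∀ u ∈ (MSp k S) ^ n, ∀ v ∈ Θ, g ^ n * u * v ∈ (MSp k τ) ^ (N * n) * Θ := by
    intro n
    induction n with
    | zero =>
      intro u hu v hv
      rw [pow_zero] at hu
      obtain ⟨c, rfl⟩ := Submodule.mem_one.1 hu
      rw [pow_zero, one_mul, Nat.mul_zero, pow_zero, one_mul, ← Algebra.smul_def]
      exact smul_mem _ _ hv
    | succ n ih =>
      intro u hu v hv
      rw [pow_succ] at hu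
      refine Submodule.mul_induction_on hu (fun x hx y hy => ?_) (fun x y hx hy => ?_)
      · have h3 : ∀ w ∈ (MSp k τ) ^ N * Θ, g ^ n * x * w ∈ (MSp k τ) ^ (N * (n + 1)) * Θ := by
          intro w hw
          refine Submodule.mul_induction_on hw (fun a ha b hb => ?_) (fun a b ha hb => ?_)
          · rw [show g ^ n * x * (a * b) = a * (g ^ n * x * b) by ring]
            rw [show N * (n + 1) = N + N * n by ring, pow_add, mul_assoc]
            exact mul_mem_mul ha (ih x hx b hb)
          · rw [mul_add (g ^ n * x)]; exact add_mem ha hb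
        rw [show g ^ (n + 1) * (x * y) * v = g ^ n * x * (g * y * v) by ring]
        exact h3 _ (h1 y hy v hv)
      · rw [mul_add (g ^ (n + 1)), add_mul]; exact add_mem hx hy
  let v0 : K := (θ ⟨0, hD⟩ : K)
  have hv0 : v0 ≠ 0 := by
    intro h
    exact θ.ne_zero ⟨0, hD⟩ (Subtype.ext h)
  refine ⟨(N + 1) ^ t * D, fun n => ?_⟩
  have hTfd := fd_pow (fd_MSp (k := k) τ) (N * n)
  have hprod : FiniteDimensional k ((MSp k τ) ^ (N * n) * Θ : Submodule k K) := by
    have h3 : ((MSp k τ) ^ (N * n)).FG := Module.Finite.iff_fg.1 hTfd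
    have h4 : Θ.FG := Module.Finite.iff_fg.1 hΘfd
    exact Module.Finite.iff_fg.2 (h3.mul h4)
  calc Module.finrank k ((MSp k S) ^ n : Submodule k K)
      ≤ Module.finrank k ((MSp k τ) ^ (N * n) * Θ : Submodule k K) := by
        refine rank_le_of_mul hprod (w := g ^ n * v0) (mul_ne_zero (pow_ne_zero _ hg) hv0) ?_
        intro x hx
        rw [show g ^ n * v0 * x = g ^ n * x * v0 by ring]
        exact h2 n x hx v0 (subset_span ⟨_, rfl⟩)
    _ ≤ Module.finrank k ((MSp k τ) ^ (N * n) : Submodule k K) * Module.finrank k Θ :=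
        rank_mul hTfd hΘfd
    _ ≤ (N * n + 1) ^ t * D := by
        refine Nat.mul_le_mul ((rank_pow τ _).trans ?_) hΘ
        exact Nat.pow_le_pow_right (by omega) hτ
    _ ≤ ((N + 1) * (n + 1)) ^ t * D := by
        refine Nat.mul_le_mul_right _ (Nat.pow_le_pow_left ?_ _)
        nlinarith [Nat.zero_le N, Nat.zero_le n]
    _ = (N + 1) ^ t * D * (n + 1) ^ t := by rw [mul_pow]; ring

end Pool.Agent.T6.H45.DR
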