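import Pool.Agent.T6.H45.DR.Hb

/-!
Uniform upper bounds for the Hilbert functions of the algebras generated by elements of degree `c`.
-/

set_option autoImplicit false

namespace Pool.Agent.T6.H45.DR

open Submodule Finset Pool.Agent.T6.H45.KN
open scoped IntermediateField

theorem alg_mono {k K : Type} [Field k] [Field K] [Algebra k K] {F F' : IntermediateField k K}
    (h : F ≤ F') {x : K} (hx : IsAlgebraic F x) : IsAlgebraic F' x := by
  obtain ⟨p, hp, hpx⟩ := hx
  have hinj : Function.Injective (IntermediateField.inclusion h).toRingHom :=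
    (IntermediateField.inclusion h).toRingHom.injective
  refine ⟨p.map (IntermediateField.inclusion h).toRingHom,
    (Polynomial.map_ne_zero_iff hinj).2 hp, ?_⟩
  rw [← hpx, Polynomial.aeval_def, Polynomial.aeval_def, Polynomial.eval₂_map]
  rfl

theorem alg_trans {k K : Type} [Field k] [Field K] [Algebra k K] {F : IntermediateField k K}
    {M : Set K} (halg : ∀ x ∈ M, IsAlgebraic F x) {u : K}
    (hu : IsAlgebraic (IntermediateField.adjoin k M) u) : IsAlgebraic F u := by
  let A : IntermediateField F K := algebraicClosure F K
  have hle : IntermediateField.adjoin k M ≤ A.restrictScalars k := by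
    rw [IntermediateField.adjoin_le_iff]
    intro x hx
    exact mem_algebraicClosure_iff'.2 (halg x hx).isIntegral
  have h1 : IsAlgebraic (A.restrictScalars k) u := alg_mono hle hu
  have h2 : IsAlgebraic A u := h1
  exact h2.restrictScalars F

theorem alg_span {k K : Type} [Field k] [Field K] [Algebra k K] (k' : IntermediateField k K)
    {τ : Set K} {M : Set K} (halg : ∀ x ∈ M, IsAlgebraic (IntermediateField.adjoin k τ) x)
    {x : K} (hx : x ∈ span k' M) : IsAlgebraic (IntermediateField.adjoin k' τ) x := by
  have hle : IntermediateField.adjoin k τ ≤ (IntermediateField.adjoin k' τ).restrictScalars k := by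
    rw [IntermediateField.adjoin_le_iff]
    intro x hx
    exact IntermediateField.subset_adjoin k' τ hx
  refine Submodule.span_induction ?_ ?_ ?_ ?_ hx
  · intro x hx
    have h1 : IsAlgebraic ((IntermediateField.adjoin k' τ).restrictScalars k) x :=
      alg_mono hle (halg x hx)
    exact h1
  · exact isAlgebraic_zero
  · intro x y _ _ hx hy; exact hx.add hy
  · intro a x _ hx
    rw [Algebra.smul_def]
    refine IsAlgebraic.mul ?_ hx
    have h2 : algebraMap k' K a = algebraMap (IntermediateField.adjoin k' τ) K
        (algebraMap k' (IntermediateField.adjoin k' τ) a) := rfl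
    rw [h2]
    exact isAlgebraic_algebraMap _

theorem mul_pow_mem {k K : Type} [Field k] [Field K] [Algebra k K] {M P : Submodule k K} {w : K}
    {c : ℕ} (h : ∀ x ∈ M, w * x ∈ P ^ c) (E : ℕ) : ∀ x ∈ M ^ E, w ^ E * x ∈ P ^ (c * E) := by
  induction E with
  | zero =>
    intro x hx
    rw [pow_zero] at hx
    rw [pow_zero, one_mul, Nat.mul_zero, pow_zero]
    exact hx
  | succ E ih =>
    intro x hx
    rw [pow_succ] at hx
    refine Submodule.mul_induction_on hx (fun a ha b hb => ?_) (fun a b ha hb => ?_)
    · rw [show w ^ (E + 1) * (a * b) = (w ^ E * a) * (w * b) by ring]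
      exact mm (by ring) (ih a ha) (h b hb)
    · rw [mul_add (w ^ (E + 1))]; exact add_mem ha hb

/-- independence over a simple transcendental extension -/
theorem indep_tr {k K : Type} [Field k] [Field K] [Algebra k K] (L : IntermediateField k K) {u : K}
    (hu : Transcendental L u) {d : ℕ} {b : Fin d → K} (hbL : ∀ i, b i ∈ L)
    (hb : LinearIndependent k b) : LinearIndependent k⟮u⟯ b := by
  classical
  rw [Fintype.linearIndependent_iff] at hb ⊢
  intro c hc
  have h1 := fun i => (IntermediateField.mem_adjoin_simple_iff k (c i : K)).1 (c i).2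
  choose r s hrs using h1
  -- common denominators
  have h2 : ∀ i, ∃ s' r' : Polynomial k, Polynomial.aeval u s' ≠ 0 ∧
      (c i : K) * Polynomial.aeval u s' = Polynomial.aeval u r' := by
    intro i
    by_cases h : Polynomial.aeval u (s i) = 0
    · refine ⟨1, 0, by simp, ?_⟩
      rw [hrs i, h, div_zero, zero_mul, map_zero]
    · refine ⟨s i, r i, h, ?_⟩
      rw [hrs i, div_mul_cancel₀ _ h]
  choose s' r' hs' hr' using h2
  let q : Fin d → Polynomial k := fun i => r' i * ∏ j ∈ univ.erase i, s' j
  have hq : ∀ i, Polynomial.aeval u (q i) = (c i : K) * ∏ j, Polynomial.aeval u (s' j) := by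
    intro i
    simp only [q, map_mul, map_prod]
    rw [← hr' i, mul_assoc, Finset.mul_prod_erase univ (fun j => Polynomial.aeval u (s' j))
      (mem_univ i)]
  let P : Polynomial L := ∑ i, Polynomial.C (⟨b i, hbL i⟩ : L) * (q i).map (algebraMap k L)
  have hP0 : Polynomial.aeval u P = 0 := by
    simp only [P, map_sum, map_mul, Polynomial.aeval_C, Polynomial.aeval_map_algebraMap, hq]
    have h3 : ∑ i, (algebraMap L K ⟨b i, hbL i⟩) * ((c i : K) * ∏ j, Polynomial.aeval u (s' j)) =
        (∑ i, c i • b i) * ∏ j, Polynomial.aeval u (s' j) := by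
      rw [Finset.sum_mul]
      refine Finset.sum_congr rfl fun i _ => ?_
      rw [IntermediateField.smul_def, smul_eq_mul]
      change b i * _ = _
      ring
    rw [h3, hc, zero_mul]
  have hP : P = 0 := by
    by_contra hne
    exact hu ⟨P, hne, hP0⟩
  have h4 : ∀ n, ∀ i, (q i).coeff n = 0 := by
    intro n
    refine hb (fun i => (q i).coeff n) ?_
    have h5 := congrArg (fun p : Polynomial L => ((p.coeff n : L) : K)) hP
    simp only [P, Polynomial.finsetSum_coeff, Polynomial.coeff_C_mul, Polynomial.coeff_map,
      Polynomial.coeff_zero, ZeroMemClass.coe_zero, AddSubmonoidClass.coe_finsetSum,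
      MulMemClass.coe_mul] at h5
    rw [← h5]
    refine Finset.sum_congr rfl fun i _ => ?_
    rw [Algebra.smul_def, mul_comm]
    rfl
  intro i
  have h6 : q i = 0 := Polynomial.ext fun n => by rw [h4 n i, Polynomial.coeff_zero]
  have h7 := hq i
  rw [h6, map_zero] at h7
  have h8 : ∏ j, Polynomial.aeval u (s' j) ≠ 0 := Finset.prod_ne_zero_iff.2 fun j _ => hs' j
  exact Subtype.ext ((mul_eq_zero.1 h7.symm).resolve_right h8)

theorem pow_sub {k : Type} {K : Type} [Field k] [Field K] [Algebra k K] (k' : IntermediateField k K)
    {M : Submodule k K} {M' : Submodule k' K} (h : ∀ x ∈ M, x ∈ M') (n : ℕ) :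
    ∀ x ∈ M ^ n, x ∈ M' ^ n := by
  induction n with
  | zero =>
    intro x hx
    rw [pow_zero] at hx ⊢
    obtain ⟨c, rfl⟩ := Submodule.mem_one.1 hx
    rw [IsScalarTower.algebraMap_apply k k' K]
    exact Submodule.algebraMap_mem _
  | succ n ih =>
    intro x hx
    rw [pow_succ] at hx ⊢
    refine Submodule.mul_induction_on hx (fun a ha b hb => ?_) (fun a b ha hb => ?_)
    · exact mul_mem_mul (ih a ha) (h b hb)
    · exact add_mem ha hb

/-- **Uniform bounds for the Hilbert functions of the algebras generated by elements of degree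
`c`.** -/
theorem unif {K : Type} [Field K] (t : ℕ) : ∀ (n : ℕ) (k : Type) [Field k] [Algebra k K]
    (S : Finset K), S.card = n →
    ∃ C : ℕ, ∀ (M : Submodule k K) (w : K) (c : ℕ), FiniteDimensional k M → (1 : K) ∈ M → w ≠ 0 →
      (∀ x ∈ M, w * x ∈ (MSp k S) ^ c) → TD k (M : Set K) t →
      ∀ E, Module.finrank k (M ^ E : Submodule k K) ≤ C * (c * E + 1) ^ t := by
  classical
  intro n
  induction n with
  | zero =>
    intro k _ _ S hS
    rw [Finset.card_eq_zero] at hS
    subst hS
    refine ⟨1, fun M w c _ h1 hw hM _ E => ?_⟩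
    have h2 := fd_pow (fd_MSp (k := k) (∅ : Finset K)) (c * E)
    calc Module.finrank k (M ^ E : Submodule k K)
        ≤ Module.finrank k ((MSp k (∅ : Finset K)) ^ (c * E) : Submodule k K) := by
          refine rank_le_of_mul h2 (w := w ^ E) (pow_ne_zero _ hw) ?_
          exact mul_pow_mem hM E
      _ ≤ 1 := by
          have := rank_pow (k := k) (∅ : Finset K) (c * E)
          rwa [Finset.card_empty, pow_zero] at this
      _ ≤ 1 * (c * E + 1) ^ t := by
          rw [one_mul]
          exact Nat.one_le_pow _ _ (by omega)
  | succ n ih =>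
    intro k _ _ S hS
    -- the constants
    obtain ⟨C0, hC0⟩ : ∃ C0 : ℕ, TD k (S : Set K) t →
        ∀ n, Module.finrank k ((MSp k S) ^ n : Submodule k K) ≤ C0 * (n + 1) ^ t := by
      by_cases h : TD k (S : Set K) t
      · obtain ⟨C, hC⟩ := hilb S h
        exact ⟨C, fun _ => hC⟩
      · exact ⟨0, fun h' => absurd h' h⟩
    have hih : ∀ u : S, ∃ C : ℕ, ∀ (M : Submodule k⟮(u : K)⟯ K) (w : K) (c : ℕ),
        FiniteDimensional k⟮(u : K)⟯ M → (1 : K) ∈ M → w ≠ 0 →
        (∀ x ∈ M, w * x ∈ (MSp k⟮(u : K)⟯ (S.erase u)) ^ c) → TD k⟮(u : K)⟯ (M : Set K) t →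
        ∀ E, Module.finrank k⟮(u : K)⟯ (M ^ E : Submodule k⟮(u : K)⟯ K) ≤ C * (c * E + 1) ^ t := by
      intro u
      exact ih k⟮(u : K)⟯ (S.erase u) (by rw [Finset.card_erase_of_mem u.2, hS]; rfl)
    choose Cu hCu using hih
    refine ⟨C0 + ∑ u, Cu u, fun M w c hfd h1 hw hM hTD E => ?_⟩
    by_cases hall : ∀ u ∈ S, IsAlgebraic (IntermediateField.adjoin k (M : Set K)) u
    · have hTS : TD k (S : Set K) t := by
        obtain ⟨τ, hτ, halg⟩ := hTD
        refine ⟨τ, hτ, fun u hu => ?_⟩
        exact alg_trans halg (hall u hu)
      have h2 := fd_pow (fd_MSp (k := k) S) (c * E)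
      calc Module.finrank k (M ^ E : Submodule k K)
          ≤ Module.finrank k ((MSp k S) ^ (c * E) : Submodule k K) :=
            rank_le_of_mul h2 (w := w ^ E) (pow_ne_zero _ hw) (mul_pow_mem hM E)
        _ ≤ C0 * (c * E + 1) ^ t := hC0 hTS _
        _ ≤ (C0 + ∑ u, Cu u) * (c * E + 1) ^ t := Nat.mul_le_mul_right _ (Nat.le_add_right _ _)
    · push Not at hall
      obtain ⟨u, hu, htr⟩ := hall
      let L := IntermediateField.adjoin k (M : Set K)
      let M' : Submodule k⟮u⟯ K := span k⟮u⟯ (M : Set K)
      have hMM' : ∀ x ∈ M, x ∈ M' := fun x hx => subset_span hx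
      have hfd' : FiniteDimensional k⟮u⟯ M' := by
        obtain ⟨s, hs⟩ := Module.Finite.iff_fg.1 hfd
        have h3 : M' = span k⟮u⟯ (s : Set K) := by
          apply le_antisymm
          · rw [Submodule.span_le]
            intro x hx
            rw [← hs] at hx
            refine Submodule.span_induction ?_ ?_ ?_ ?_ hx
            · intro x hx; exact subset_span hx
            · exact zero_mem _
            · intro x y _ _ hx hy; exact add_mem hx hy
            · intro a x _ hx
              have h4 : a • x = (algebraMap k k⟮u⟯ a) • x := by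
                rw [algebraMap_smul]
              rw [h4]
              exact smul_mem _ _ hx
          · refine span_mono ?_
            intro x hx
            rw [← hs]
            exact subset_span hx
        rw [h3]
        exact FiniteDimensional.span_finset _ s
      have hsub : ∀ x ∈ MSp k S, x ∈ MSp k⟮u⟯ (S.erase u) := by
        intro x hx
        refine Submodule.span_induction ?_ ?_ ?_ ?_ hx
        · intro s hs
          rcases hs with rfl | hs
          · exact one_MSp _
          · by_cases hsu : s = u
            · subst hsu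
              have h4 : s = (IntermediateField.AdjoinSimple.gen k s) • (1 : K) := by
                rw [IntermediateField.smul_def, IntermediateField.AdjoinSimple.coe_gen, smul_eq_mul,
                  mul_one]
              have h5 : (IntermediateField.AdjoinSimple.gen k s) • (1 : K) ∈
                  MSp k⟮s⟯ (S.erase s) := smul_mem _ _ (one_MSp _)
              rwa [← h4] at h5
            · exact mem_MSp (Finset.mem_erase.2 ⟨hsu, hs⟩)
        · exact zero_mem _
        · intro x y _ _ hx hy; exact add_mem hx hy
        · intro a x _ hx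
          have h4 : a • x = (algebraMap k k⟮u⟯ a) • x := by rw [algebraMap_smul]
          rw [h4]
          exact smul_mem _ _ hx
      have hM' : ∀ x ∈ M', w * x ∈ (MSp k⟮u⟯ (S.erase u)) ^ c := by
        intro x hx
        refine Submodule.span_induction ?_ ?_ ?_ ?_ hx
        · intro x hx
          exact pow_sub _ hsub c _ (hM x hx)
        · rw [mul_zero]; exact zero_mem _
        · intro x y _ _ hx hy
          rw [mul_add]; exact add_mem hx hy
        · intro a x _ hx
          rw [mul_smul_comm]; exact smul_mem _ _ hx
      have hTD' : TD k⟮u⟯ (M' : Set K) t := by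
        obtain ⟨τ, hτ, halg⟩ := hTD
        refine ⟨τ, hτ, fun x hx => ?_⟩
        exact alg_span _ halg hx
      have hrank : Module.finrank k (M ^ E : Submodule k K) ≤
          Module.finrank k⟮u⟯ (M' ^ E : Submodule k⟮u⟯ K) := by
        have h5 := fd_pow hfd E
        have h6 := fd_pow hfd' E
        let b := Module.finBasis k (M ^ E : Submodule k K)
        have hb : LinearIndependent k fun i => (b i : K) :=
          b.linearIndependent.map' (Submodule.subtype _) (Submodule.ker_subtype _)
        have hbL : ∀ i, (b i : K) ∈ L := by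
          intro i
          have h7 : ∀ n, ∀ x ∈ M ^ n, x ∈ L := by
            intro n
            induction n with
            | zero =>
              intro x hx
              rw [pow_zero] at hx
              obtain ⟨c, rfl⟩ := Submodule.mem_one.1 hx
              exact L.algebraMap_mem c
            | succ n ih2 =>
              intro x hx
              rw [pow_succ] at hx
              refine Submodule.mul_induction_on hx (fun a ha b hb => ?_) (fun a b ha hb => ?_)
              · exact mul_mem (ih2 a ha) (IntermediateField.subset_adjoin k _ hb)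
              · exact add_mem ha hb
          exact h7 E _ (b i).2
        have h8 := indep_tr L (u := u) htr hbL hb
        have h9 : LinearIndependent k⟮u⟯ fun i =>
            (⟨(b i : K), pow_sub _ hMM' E _ (b i).2⟩ : (M' ^ E : Submodule k⟮u⟯ K)) := by
          refine LinearIndependent.of_comp (Submodule.subtype _) ?_
          exact h8
        have h10 := h9.fintype_card_le_finrank
        rwa [Fintype.card_fin] at h10
      calc Module.finrank k (M ^ E : Submodule k K)
          ≤ Module.finrank k⟮u⟯ (M' ^ E : Submodule k⟮u⟯ K) := hrank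
        _ ≤ Cu ⟨u, hu⟩ * (c * E + 1) ^ t :=
            hCu ⟨u, hu⟩ M' w c hfd' (hMM' 1 h1) hw hM' hTD' E
        _ ≤ (C0 + ∑ u, Cu u) * (c * E + 1) ^ t := by
            refine Nat.mul_le_mul_right _ ?_
            refine le_trans ?_ (Nat.le_add_left _ _)
            exact Finset.single_le_sum (f := Cu) (fun _ _ => Nat.zero_le _) (Finset.mem_univ _)

end Pool.Agent.T6.H45.DR
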