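import Pool.Agent.T6.H45.KN.Sq

/-!
Sequences given by divide-and-conquer recursions: the sections along the arithmetic progressions
`q ^ l m + i` are quotients of polynomials of degree at most `C K ^ l` in finitely many fixed
sequences.
-/

set_option autoImplicit false

namespace Pool.Agent.T6.H45.DR

open Filter Submodule Finset
open Pool.Agent.T6.H45.KN (MS one_MS mem_MS MS_mono pm mm pw prod_pw one_step one_step_eval)

variable {k : Type} [Field k]

/-- the smallest class of sequences in the field `k` which contains the constant sequences, is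
closed under eventual equality, sums, products and inverses of eventually nonvanishing sequences,
and contains the coordinates of the sequences of vectors with `y (q n + i) = Φ i n (y n)` for
`0 ≤ i < q` and all large `n`, where the `Φ i n` are rational maps whose coefficients are sequences
in the class. -/
inductive DivR (q : ℕ) : (ℕ → k) → Prop
  | const (c : k) : DivR q (fun _ => c)
  | congr {f g : ℕ → k} : DivR q f → (∀ᶠ n in atTop, f n = g n) → DivR q g
  | add {f g : ℕ → k} : DivR q f → DivR q g → DivR q (fun n => f n + g n)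
  | mul {f g : ℕ → k} : DivR q f → DivR q g → DivR q (fun n => f n * g n)
  | inv {f : ℕ → k} : DivR q f → (∀ᶠ n in atTop, f n ≠ 0) → DivR q (fun n => (f n)⁻¹)
  | recursion {r : ℕ} {E : Finset (Fin r → ℕ)} {a : Fin q → Fin r → (Fin r → ℕ) → ℕ → k}
      {b : Fin q → (Fin r → ℕ) → ℕ → k} {y : ℕ → Fin r → k} :
      (∀ i j, ∀ e ∈ E, DivR q (a i j e)) → (∀ i, ∀ e ∈ E, DivR q (b i e)) →
      (∀ᶠ n in atTop, ∀ i : Fin q, ∑ e ∈ E, b i e n * ∏ l, y n l ^ e l ≠ 0 ∧
        ∀ j, y (q * n + i) j * ∑ e ∈ E, b i e n * ∏ l, y n l ^ e l =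
          ∑ e ∈ E, a i j e n * ∏ l, y n l ^ e l) →
      ∀ j, DivR q (fun n => y n j)

/-- common representation of the sections of finitely many sequences -/
def GrF (q : ℕ) {ι : Type} (f : ι → ℕ → k) : Prop :=
  ∃ (S : Finset (ℕ → k)) (C K : ℕ), 1 ≤ K ∧ ∀ l i, i < q ^ l →
    ∃ D ∈ MS S ^ (C * K ^ l), ∃ B : ι → ℕ → k,
    (∀ j, B j ∈ MS S ^ (C * K ^ l)) ∧
      ∀ᶠ m in atTop, D m ≠ 0 ∧ ∀ j, D m * f j (q ^ l * m + i) = B j m

/-- the same for one sequence -/
def Gr (q : ℕ) (f : ℕ → k) : Prop := GrF q fun _ : Unit => f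

theorem fam {q : ℕ} {ι : Type} [Fintype ι] (f : ι → ℕ → k) (h : ∀ i, Gr q (f i)) : GrF q f := by
  classical
  choose S C K hK h using h
  refine ⟨univ.biUnion S, ∑ i, C i, 1 + ∑ i, K i, by omega, fun l i hi => ?_⟩
  choose D hD B hB hDB using fun j => h j l i hi
  have hS : ∀ j, S j ⊆ univ.biUnion S := fun j => subset_biUnion_of_mem S (mem_univ j)
  have hq : ∀ j, C j * K j ^ l ≤ C j * (1 + ∑ i, K i) ^ l := fun j => by
    refine Nat.mul_le_mul_left _ (Nat.pow_le_pow_left ?_ _)
    have := single_le_sum (f := K) (fun _ _ => Nat.zero_le _) (mem_univ j)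
    omega
  have hD' : ∀ j, D j ∈ MS (univ.biUnion S) ^ (C j * (1 + ∑ i, K i) ^ l) := fun j =>
    pm (one_MS _) (hq j) (MS_mono (hS j) _ (hD j))
  have hB' : ∀ j, B j () ∈ MS (univ.biUnion S) ^ (C j * (1 + ∑ i, K i) ^ l) := fun j =>
    pm (one_MS _) (hq j) (MS_mono (hS j) _ (hB j ()))
  refine ⟨∏ j, D j, ?_, fun j => B j () * ∏ j' ∈ univ.erase j, D j', fun j => ?_, ?_⟩
  · rw [sum_mul]
    exact prod_pw _ _ _ fun j _ => hD' j
  · rw [sum_mul, ← add_sum_erase univ _ (mem_univ j)]
    exact mm rfl (hB' j) (prod_pw _ _ _ fun j _ => hD' j)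
  · filter_upwards [eventually_all.2 hDB] with m hm
    refine ⟨?_, fun j => ?_⟩
    · rw [prod_apply]
      exact prod_ne_zero_iff.2 fun j _ => (hm j).1
    · have h1 := (hm j).2 ()
      rw [Pi.mul_apply, ← h1, ← mul_prod_erase univ D (mem_univ j), Pi.mul_apply]
      ring

theorem tend {q : ℕ} (hq : 2 ≤ q) (l i : ℕ) :
    Tendsto (fun m : ℕ => q ^ l * m + i) atTop atTop := by
  refine tendsto_atTop_mono (fun m => ?_) tendsto_id
  have h1 : 1 ≤ q ^ l := Nat.one_le_pow _ _ (by omega)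
  calc m = 1 * m := (one_mul m).symm
    _ ≤ q ^ l * m := Nat.mul_le_mul_right _ h1
    _ ≤ q ^ l * m + i := Nat.le_add_right _ _

theorem bound {δ C K : ℕ} {d : ℕ → ℕ} (h0 : d 0 = 1)
    (h1 : ∀ n, d (n + 1) = δ * d n + C * K ^ n) (n : ℕ) : d n ≤ (C + 1) * (δ + K + 1) ^ n := by
  induction n with
  | zero => rw [h0]; simp
  | succ n ih =>
    rw [h1]
    have h2 : K ^ n ≤ (δ + K + 1) ^ n := Nat.pow_le_pow_left (by omega) n
    calc δ * d n + C * K ^ n ≤ δ * ((C + 1) * (δ + K + 1) ^ n) + C * (δ + K + 1) ^ n :=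
          Nat.add_le_add (Nat.mul_le_mul_left _ ih) (Nat.mul_le_mul_left _ h2)
      _ ≤ (C + 1) * (δ + K + 1) ^ (n + 1) := by
          rw [pow_succ]
          nlinarith [Nat.zero_le (K * C * (δ + K + 1) ^ n), Nat.zero_le (K * (δ + K + 1) ^ n),
            Nat.zero_le ((δ + K + 1) ^ n)]

/-- the degrees of the sections -/
theorem DivR.gr {q : ℕ} (hq : 2 ≤ q) {f : ℕ → k} (h : DivR q f) : Gr q f := by
  classical
  induction h with
  | const c =>
    refine ⟨∅, 0, 1, le_rfl, fun l i _ => ⟨1, ?_, fun _ => algebraMap k _ c, fun _ => ?_, ?_⟩⟩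
    · rw [Nat.zero_mul, pow_zero]
      exact one_le.1 le_rfl
    · rw [Nat.zero_mul, pow_zero]
      exact algebraMap_mem c
    · exact Eventually.of_forall fun m => ⟨one_ne_zero, fun _ => by
        rw [Pi.one_apply, one_mul]; rfl⟩
  | @congr f g _ h2 ih =>
    obtain ⟨S, C, K, hK, h⟩ := ih
    refine ⟨S, C, K, hK, fun l i hi => ?_⟩
    obtain ⟨D, hD, B, hB, hDB⟩ := h l i hi
    refine ⟨D, hD, B, hB, ?_⟩
    filter_upwards [hDB, (tend hq l i).eventually h2] with m hm hm2
    refine ⟨hm.1, fun j => ?_⟩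
    rw [← hm2]
    exact hm.2 j
  | @add f g _ _ ih1 ih2 =>
    obtain ⟨S, C, K, hK, h⟩ := fam (q := q) ![f, g] (by
      intro i
      fin_cases i
      · exact ih1
      · exact ih2)
    refine ⟨S, C, K, hK, fun l i hi => ?_⟩
    obtain ⟨D, hD, B, hB, hDB⟩ := h l i hi
    refine ⟨D, hD, fun _ => B 0 + B 1, fun _ => add_mem (hB 0) (hB 1), ?_⟩
    filter_upwards [hDB] with m hm
    refine ⟨hm.1, fun _ => ?_⟩
    have h0 := hm.2 0
    have h1 := hm.2 1
    simp only [Matrix.cons_val_zero, Matrix.cons_val_one] at h0 h1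
    rw [Pi.add_apply, ← h0, ← h1, mul_add]
  | @mul f g _ _ ih1 ih2 =>
    obtain ⟨S, C, K, hK, h⟩ := fam (q := q) ![f, g] (by
      intro i
      fin_cases i
      · exact ih1
      · exact ih2)
    refine ⟨S, C + C, K, hK, fun l i hi => ?_⟩
    obtain ⟨D, hD, B, hB, hDB⟩ := h l i hi
    rw [Nat.add_mul]
    refine ⟨D * D, mm rfl hD hD, fun _ => B 0 * B 1, fun _ => mm rfl (hB 0) (hB 1), ?_⟩
    filter_upwards [hDB] with m hm
    refine ⟨mul_ne_zero hm.1 hm.1, fun _ => ?_⟩
    have h0 := hm.2 0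
    have h1 := hm.2 1
    simp only [Matrix.cons_val_zero, Matrix.cons_val_one] at h0 h1
    rw [Pi.mul_apply, Pi.mul_apply, ← h0, ← h1]
    ring
  | @inv f _ h2 ih =>
    obtain ⟨S, C, K, hK, h⟩ := ih
    refine ⟨S, C, K, hK, fun l i hi => ?_⟩
    obtain ⟨D, hD, B, hB, hDB⟩ := h l i hi
    refine ⟨B (), hB (), fun _ => D, fun _ => hD, ?_⟩
    filter_upwards [hDB, (tend hq l i).eventually h2] with m hm hm2
    have h3 := hm.2 ()
    refine ⟨?_, fun _ => ?_⟩
    · rw [← h3]; exact mul_ne_zero hm.1 hm2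
    · rw [← h3, mul_assoc, mul_inv_cancel₀ hm2, mul_one]
  | @recursion r E a b y _ _ h4 j iha ihb =>
    let δ : ℕ := E.sup fun e => ∑ l, e l
    have hE : ∀ e ∈ E, ∑ l, e l ≤ δ := fun e he => Finset.le_sup (f := fun e => ∑ l, e l) he
    obtain ⟨S, C, K, hK, h⟩ := fam (q := q) (ι := Fin q × Option (Fin r) × E)
      (fun p => p.2.1.elim (b p.1 p.2.2) fun i => a p.1 i p.2.2) (by
        rintro ⟨i0, _ | i, e⟩
        · exact ihb i0 e.1 e.2
        · exact iha i0 i e.1 e.2)
    let Y : Fin r → ℕ → k := fun i n => y n i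
    let S' := S ∪ univ.image Y
    have hSS : S ⊆ S' := subset_union_left
    have hY : ∀ i, Y i ∈ MS S' := fun i => mem_MS (mem_union_right _ (mem_image_of_mem _ (mem_univ i)))
    obtain ⟨d, hd0, hd1⟩ : ∃ d : ℕ → ℕ, d 0 = 1 ∧ ∀ n, d (n + 1) = δ * d n + C * K ^ n :=
      ⟨fun n => Nat.rec 1 (fun n dn => δ * dn + C * K ^ n) n, rfl, fun n => rfl⟩
    have key : ∀ l i, i < q ^ l → ∃ D ∈ MS S' ^ d l, ∃ N : Fin r → ℕ → k,
        (∀ i, N i ∈ MS S' ^ d l) ∧
        ∀ᶠ m in atTop, D m ≠ 0 ∧ ∀ j, D m * y (q ^ l * m + i) j = N j m := by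
      intro l
      induction l with
      | zero =>
        intro i hi
        rw [pow_zero, Nat.lt_one_iff] at hi
        rw [hd0, hi]
        refine ⟨1, by rw [pow_one]; exact one_MS _, Y, fun i => by rw [pow_one]; exact hY i, ?_⟩
        exact Eventually.of_forall fun m => ⟨one_ne_zero, fun i => by
          rw [Pi.one_apply, one_mul, pow_zero, one_mul, add_zero]⟩
      | succ l ih =>
        intro i' hi'
        have hi2 : i' / q < q ^ l := by
          rw [Nat.div_lt_iff_lt_mul (by omega)]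
          rwa [pow_succ] at hi'
        have hi0 : i' % q < q := Nat.mod_lt _ (by omega)
        obtain ⟨D, hD, N, hN, hDN⟩ := ih (i' / q) hi2
        obtain ⟨Δ, hΔ, B, hB, hΔB⟩ := h l (i' / q) hi2
        rw [hd1]
        have hB' : ∀ p, B p ∈ MS S' ^ (C * K ^ l) := fun p => MS_mono hSS _ (hB p)
        let cb : (Fin r → ℕ) → ℕ → k := fun e =>
          if he : e ∈ E then B (⟨i' % q, hi0⟩, none, ⟨e, he⟩) else 0
        let ca : Fin r → (Fin r → ℕ) → ℕ → k := fun i e =>
          if he : e ∈ E then B (⟨i' % q, hi0⟩, some i, ⟨e, he⟩) else 0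
        refine ⟨∑ e ∈ E, cb e * (∏ l, N l ^ e l) * D ^ (δ - ∑ l, e l),
          one_step hE (fun e he => ?_) hD hN,
          fun i => ∑ e ∈ E, ca i e * (∏ l, N l ^ e l) * D ^ (δ - ∑ l, e l),
          fun i => one_step hE (fun e he => ?_) hD hN, ?_⟩
        · simp only [cb, dif_pos he]; exact hB' _
        · simp only [ca, dif_pos he]; exact hB' _
        · filter_upwards [hDN, hΔB, (tend hq l (i' / q)).eventually h4] with m hm1 hm2 hm3
          have e1 : ∀ c : (Fin r → ℕ) → ℕ → k,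
              (∑ e ∈ E, c e * (∏ l, N l ^ e l) * D ^ (δ - ∑ l, e l)) m =
              ∑ e ∈ E, c e m * (∏ l, N l m ^ e l) * D m ^ (δ - ∑ l, e l) := by
            intro c
            simp only [Finset.sum_apply, Pi.mul_apply, Finset.prod_apply, Pi.pow_apply]
          have e2 := one_step_eval hE (fun e => cb e m)
            (fun e => b ⟨i' % q, hi0⟩ e (q ^ l * m + i' / q)) (Δ m) (D m)
            (fun l => N l m) (y (q ^ l * m + i' / q)) (fun e he => by
              have := hm2.2 (⟨i' % q, hi0⟩, none, ⟨e, he⟩)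
              simp only [cb, dif_pos he]
              exact this) hm1.2
          have e3 := fun i => one_step_eval hE (fun e => ca i e m)
            (fun e => a ⟨i' % q, hi0⟩ i e (q ^ l * m + i' / q)) (Δ m)
            (D m) (fun l => N l m) (y (q ^ l * m + i' / q)) (fun e he => by
              have := hm2.2 (⟨i' % q, hi0⟩, some i, ⟨e, he⟩)
              simp only [ca, dif_pos he]
              exact this) hm1.2
          have hm4 := hm3 ⟨i' % q, hi0⟩
          refine ⟨?_, fun i => ?_⟩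
          · rw [e1, e2]
            exact mul_ne_zero (mul_ne_zero hm2.1 (pow_ne_zero _ hm1.1)) hm4.1
          · rw [e1, e1, e2, e3, ← hm4.2 i]
            have e5 : q * (q ^ l * m + i' / q) + i' % q = q ^ (l + 1) * m + i' := by
              have := Nat.div_add_mod i' q
              rw [pow_succ]
              calc q * (q ^ l * m + i' / q) + i' % q
                  = q ^ l * q * m + (q * (i' / q) + i' % q) := by ring
                _ = q ^ l * q * m + i' := by rw [this]
            simp only [e5]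
            ring
    refine ⟨S', C + 1, δ + K + 1, by omega, fun l i hi => ?_⟩
    obtain ⟨D, hD, N, hN, hDN⟩ := key l i hi
    have hb := bound hd0 hd1 l
    refine ⟨D, pm (one_MS _) hb hD, fun _ => N j, fun _ => pm (one_MS _) hb (hN j), ?_⟩
    filter_upwards [hDN] with m hm
    exact ⟨hm.1, fun _ => hm.2 j⟩

end Pool.Agent.T6.H45.DR
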