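import Mathlib
import Pool.Agent.T6.H45.DR.Sq
import Pool.Agent.T6.H19.KS.Def

/-!
The heights of the sequences given by divide-and-conquer recursions grow at most polynomially.
-/

set_option autoImplicit false

namespace Pool.Agent.T6.H45.DR

open Filter Height

variable {K : Type} [Field K] [NumberField K]

/-- heights bounded by a power -/
def PH (f : ℕ → K) : Prop := ∃ C κ : ℕ, ∀ n : ℕ, logHeight₁ (f n) ≤ C * ((n : ℝ) + 1) ^ κ

theorem one_le_pw (n κ : ℕ) : (1 : ℝ) ≤ ((n : ℝ) + 1) ^ κ :=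
  one_le_pow₀ (by linarith [Nat.cast_nonneg (α := ℝ) n])

theorem pw_mono (n : ℕ) {κ κ' : ℕ} (h : κ ≤ κ') : ((n : ℝ) + 1) ^ κ ≤ ((n : ℝ) + 1) ^ κ' :=
  pow_le_pow_right₀ (by linarith [Nat.cast_nonneg (α := ℝ) n]) h

/-- finitely many exceptions -/
theorem pb_of_eventually {g : ℕ → ℝ} {C κ : ℕ} (h : ∀ᶠ n : ℕ in atTop, g n ≤ C * ((n : ℝ) + 1) ^ κ) :
    ∃ C' : ℕ, ∀ n : ℕ, g n ≤ C' * ((n : ℝ) + 1) ^ κ := by
  obtain ⟨n0, h⟩ := eventually_atTop.1 h
  obtain ⟨B, hB⟩ := exists_nat_gt (∑ n ∈ Finset.range n0, |g n|)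
  refine ⟨C + B, fun n => ?_⟩
  have h1 := one_le_pw n κ
  have hB0 : (0 : ℝ) ≤ B := Nat.cast_nonneg B
  have hC0 : (0 : ℝ) ≤ C := Nat.cast_nonneg C
  push_cast
  rcases Nat.lt_or_ge n n0 with hn | hn
  · have h2 : |g n| ≤ ∑ n ∈ Finset.range n0, |g n| :=
      Finset.single_le_sum (f := fun n => |g n|) (fun _ _ => abs_nonneg _) (Finset.mem_range.2 hn)
    have h3 := le_abs_self (g n)
    nlinarith
  · have h2 := h n hn
    nlinarith

/-- a common bound -/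
theorem PH.family {ι : Type} [Finite ι] {f : ι → ℕ → K} (h : ∀ i, PH (f i)) :
    ∃ C κ : ℕ, ∀ i n, logHeight₁ (f i n) ≤ C * ((n : ℝ) + 1) ^ κ := by
  have := Fintype.ofFinite ι
  choose C κ h using h
  refine ⟨∑ i, C i, ∑ i, κ i, fun i n => (h i n).trans ?_⟩
  have h1 : C i ≤ ∑ i, C i := Finset.single_le_sum (fun _ _ => Nat.zero_le _) (Finset.mem_univ i)
  have h2 : κ i ≤ ∑ i, κ i := Finset.single_le_sum (fun _ _ => Nat.zero_le _) (Finset.mem_univ i)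
  have h3 : (C i : ℝ) ≤ (∑ i, C i : ℕ) := by exact_mod_cast h1
  exact mul_le_mul h3 (pw_mono n h2) (by positivity) (by positivity)

theorem PH.const (c : K) : PH fun _ => c := by
  obtain ⟨C, hC⟩ := exists_nat_ge (logHeight₁ c)
  exact ⟨C, 0, fun n => by simpa using hC⟩

theorem PH.congr {f g : ℕ → K} (h : PH f) (hfg : ∀ᶠ n in atTop, f n = g n) : PH g := by
  obtain ⟨C, κ, h⟩ := h
  obtain ⟨C', h'⟩ := pb_of_eventually (g := fun n => logHeight₁ (g n)) (C := C) (κ := κ) (by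
    filter_upwards [hfg] with n hn
    rw [← hn]
    exact h n)
  exact ⟨C', κ, h'⟩

theorem PH.two {f g : ℕ → K} (hf : PH f) (hg : PH g) : ∃ C κ : ℕ, ∀ n : ℕ,
    logHeight₁ (f n) ≤ C * ((n : ℝ) + 1) ^ κ ∧ logHeight₁ (g n) ≤ C * ((n : ℝ) + 1) ^ κ := by
  obtain ⟨C, κ, h⟩ := PH.family (f := ![f, g]) (fun i => by fin_cases i <;> assumption)
  exact ⟨C, κ, fun n => ⟨h 0 n, h 1 n⟩⟩

theorem PH.add {f g : ℕ → K} (hf : PH f) (hg : PH g) : PH fun n => f n + g n := by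
  obtain ⟨C, κ, h⟩ := hf.two hg
  obtain ⟨B, hB⟩ := exists_nat_ge ((totalWeight K : ℝ) * Real.log 2)
  refine ⟨B + 2 * C, κ, fun n => ?_⟩
  obtain ⟨h1, h2⟩ := h n
  have h3 := logHeight₁_add_le (f n) (g n)
  have h4 := one_le_pw n κ
  have hB0 : (0 : ℝ) ≤ B := Nat.cast_nonneg B
  push_cast
  nlinarith

theorem PH.mul {f g : ℕ → K} (hf : PH f) (hg : PH g) : PH fun n => f n * g n := by
  obtain ⟨C, κ, h⟩ := hf.two hg
  refine ⟨2 * C, κ, fun n => ?_⟩
  obtain ⟨h1, h2⟩ := h n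
  have h3 := logHeight₁_mul_le (f n) (g n)
  push_cast
  linarith

theorem PH.inv {f : ℕ → K} (hf : PH f) : PH fun n => (f n)⁻¹ := by
  obtain ⟨C, κ, h⟩ := hf
  exact ⟨C, κ, fun n => by rw [logHeight₁_inv]; exact h n⟩

/-- the height of a value of a polynomial -/
theorem poly_height {r : ℕ} (E : Finset (Fin r → ℕ)) {a : (Fin r → ℕ) → ℕ → K}
    (ha : ∀ e ∈ E, PH (a e)) : ∃ C κ D : ℕ, ∀ (n : ℕ) (v : Fin r → K),
    logHeight₁ (∑ e ∈ E, a e n * ∏ l, v l ^ e l) ≤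
      C * ((n : ℝ) + 1) ^ κ + D * ∑ l, logHeight₁ (v l) := by
  obtain ⟨C, κ, h⟩ := PH.family (ι := E) (f := fun e => a e) (fun e => ha e e.2)
  obtain ⟨B, hB⟩ := exists_nat_ge ((totalWeight K : ℝ) * Real.log E.card)
  refine ⟨B + E.card * C, κ, ∑ e ∈ E, ∑ l, e l, fun n v => ?_⟩
  have h1 := logHeight₁_sum_le E fun e => a e n * ∏ l, v l ^ e l
  have h2 : ∑ e ∈ E, logHeight₁ (a e n * ∏ l, v l ^ e l) ≤
      ∑ e ∈ E, ((C : ℝ) * ((n : ℝ) + 1) ^ κ + (∑ l, e l : ℕ) * ∑ l, logHeight₁ (v l)) := by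
    refine Finset.sum_le_sum fun e he => ?_
    refine (logHeight₁_mul_le _ _).trans (add_le_add (h ⟨e, he⟩ n) ?_)
    refine (logHeight₁_prod_le _ _).trans ?_
    calc ∑ l, logHeight₁ (v l ^ e l) = ∑ l, (e l : ℝ) * logHeight₁ (v l) :=
          Finset.sum_congr rfl fun l _ => logHeight₁_pow _ _
      _ ≤ ∑ l, (e l : ℝ) * ∑ l, logHeight₁ (v l) :=
          Finset.sum_le_sum fun l _ => mul_le_mul_of_nonneg_left
            (Finset.single_le_sum (f := fun l => logHeight₁ (v l))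
              (fun _ _ => zero_le_logHeight₁ _) (Finset.mem_univ l)) (Nat.cast_nonneg _)
      _ = (∑ l, e l : ℕ) * ∑ l, logHeight₁ (v l) := by
          rw [← Finset.sum_mul]
          push_cast
          rfl
  rw [Finset.sum_add_distrib, Finset.sum_const, nsmul_eq_mul, ← Finset.sum_mul] at h2
  have h3 := one_le_pw n κ
  have hB0 : (0 : ℝ) ≤ B := Nat.cast_nonneg B
  push_cast at h2 ⊢
  nlinarith

/-- the solution of the recursive inequality -/
theorem rec_bound {q : ℕ} (hq : 2 ≤ q) {H : ℕ → ℝ} (hH : ∀ n, 0 ≤ H n) {C κ D n0 : ℕ}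
    (h : ∀ n ≥ n0, ∀ i < q, H (q * n + i) ≤ C * ((n : ℝ) + 1) ^ κ + D * H n) :
    ∃ C' κ' : ℕ, ∀ n : ℕ, H n ≤ C' * ((n : ℝ) + 1) ^ κ' := by
  obtain ⟨κ', hκ1, hκ2⟩ : ∃ κ', κ ≤ κ' ∧ (D : ℝ) + 1 ≤ (3 / 2 : ℝ) ^ κ' := by
    obtain ⟨m, hm⟩ := pow_unbounded_of_one_lt ((D : ℝ) + 1) (by norm_num : (1 : ℝ) < 3 / 2)
    exact ⟨κ + m, Nat.le_add_right _ _, hm.le.trans (pow_le_pow_right₀ (by norm_num)
      (Nat.le_add_left _ _))⟩
  obtain ⟨B, hB⟩ := exists_nat_gt (∑ n ∈ Finset.range (q * (n0 + 1)), H n)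
  refine ⟨C + B, κ', fun n => ?_⟩
  have hB0 : (0 : ℝ) ≤ B := Nat.cast_nonneg B
  have hC0 : (0 : ℝ) ≤ C := Nat.cast_nonneg C
  have hD0 : (0 : ℝ) ≤ D := Nat.cast_nonneg D
  induction n using Nat.strong_induction_on with
  | _ n ih =>
  rcases Nat.lt_or_ge n (q * (n0 + 1)) with hn | hn
  · have h2 : H n ≤ ∑ n ∈ Finset.range (q * (n0 + 1)), H n :=
      Finset.single_le_sum (f := fun n => H n) (fun _ _ => hH _) (Finset.mem_range.2 hn)
    have h1 := one_le_pw n κ'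
    push_cast
    nlinarith
  · set m := n / q with hm
    have hq0 : 0 < q := by omega
    have hm1 : n0 + 1 ≤ m := (Nat.le_div_iff_mul_le hq0).2 (by rw [mul_comm]; exact hn)
    have hdm : q * m + n % q = n := Nat.div_add_mod n q
    have hmn : m < n := Nat.div_lt_self (by
      have : 0 < q * (n0 + 1) := Nat.mul_pos hq0 (Nat.succ_pos _)
      omega) (by omega)
    have h1 := h m (by omega) (n % q) (Nat.mod_lt _ hq0)
    rw [hdm] at h1
    have h2 := ih m hmn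
    have h3 : (3 / 2 : ℝ) * ((m : ℝ) + 1) ≤ (n : ℝ) + 1 := by
      have h4 : 2 * m ≤ n := by
        calc 2 * m ≤ q * m := Nat.mul_le_mul_right _ hq
          _ ≤ n := by omega
      have h5 : (2 : ℝ) * m ≤ n := by exact_mod_cast h4
      have h6 : (1 : ℝ) ≤ m := by
        have : 1 ≤ m := by omega
        exact_mod_cast this
      linarith
    have h4 : ((3 / 2 : ℝ)) ^ κ' * ((m : ℝ) + 1) ^ κ' ≤ ((n : ℝ) + 1) ^ κ' := by
      rw [← mul_pow]
      exact pow_le_pow_left₀ (by positivity) h3 _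
    have h5 := pw_mono m hκ1
    have h6 : (0 : ℝ) ≤ ((m : ℝ) + 1) ^ κ' := by positivity
    calc H n ≤ C * ((m : ℝ) + 1) ^ κ + D * H m := h1
      _ ≤ (C + B) * ((m : ℝ) + 1) ^ κ' + D * ((C + B) * ((m : ℝ) + 1) ^ κ') := by
          push_cast at h2
          refine add_le_add ?_ (mul_le_mul_of_nonneg_left h2 hD0)
          nlinarith
      _ = (C + B) * ((D + 1) * ((m : ℝ) + 1) ^ κ') := by ring
      _ ≤ (C + B) * ((3 / 2 : ℝ) ^ κ' * ((m : ℝ) + 1) ^ κ') :=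
          mul_le_mul_of_nonneg_left (mul_le_mul_of_nonneg_right hκ2 h6) (by positivity)
      _ ≤ (C + B) * ((n : ℝ) + 1) ^ κ' := mul_le_mul_of_nonneg_left h4 (by positivity)
      _ = ((C + B : ℕ) : ℝ) * ((n : ℝ) + 1) ^ κ' := by push_cast; ring

theorem PH.finset {ι : Type} (s : Finset ι) {f : ι → ℕ → ℝ}
    (h : ∀ i ∈ s, ∃ C κ : ℕ, ∀ n : ℕ, f i n ≤ C * ((n : ℝ) + 1) ^ κ) :
    ∃ C κ : ℕ, ∀ i ∈ s, ∀ n : ℕ, f i n ≤ C * ((n : ℝ) + 1) ^ κ := by
  classical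
  have h' : ∀ i : s, ∃ C κ : ℕ, ∀ n : ℕ, f i n ≤ C * ((n : ℝ) + 1) ^ κ := fun i => h i i.2
  choose C κ h' using h'
  refine ⟨∑ i, C i, ∑ i, κ i, fun i hi n => (h' ⟨i, hi⟩ n).trans ?_⟩
  have h1 : C ⟨i, hi⟩ ≤ ∑ i, C i :=
    Finset.single_le_sum (fun _ _ => Nat.zero_le _) (Finset.mem_univ (⟨i, hi⟩ : s))
  have h2 : κ ⟨i, hi⟩ ≤ ∑ i, κ i :=
    Finset.single_le_sum (fun _ _ => Nat.zero_le _) (Finset.mem_univ (⟨i, hi⟩ : s))
  have h3 : (C ⟨i, hi⟩ : ℝ) ≤ (∑ i, C i : ℕ) := by exact_mod_cast h1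
  exact mul_le_mul h3 (pw_mono n h2) (by positivity) (by positivity)

/-- **The heights grow at most polynomially.** -/
theorem DivR.height {q : ℕ} (hq : 2 ≤ q) {f : ℕ → K} (h : DivR q f) : PH f := by
  classical
  induction h with
  | const c => exact PH.const c
  | congr _ h2 ih => exact ih.congr h2
  | add _ _ ih1 ih2 => exact ih1.add ih2
  | mul _ _ ih1 ih2 => exact ih1.mul ih2
  | inv _ _ ih => exact ih.inv
  | @recursion r E a b y _ _ h3 j iha ihb =>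
    obtain ⟨n0, h3⟩ := eventually_atTop.1 h3
    choose C κ D hC using fun (p : Fin q × Fin r) => poly_height E (iha p.1 p.2)
    choose C' κ' D' hC' using fun (i : Fin q) => poly_height E (ihb i)
    -- the recursive inequality
    have key : ∀ n ≥ n0, ∀ i < q, ∑ l, logHeight₁ (y (q * n + i) l) ≤
        ((∑ p, C p + r * ∑ i, C' i : ℕ) : ℝ) * ((n : ℝ) + 1) ^ (∑ p, κ p + ∑ i, κ' i) +
          ((∑ p, D p + r * ∑ i, D' i : ℕ) : ℝ) * ∑ l, logHeight₁ (y n l) := by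
      intro n hn i hi
      have hS : 0 ≤ ∑ l, logHeight₁ (y n l) := Finset.sum_nonneg fun _ _ => zero_le_logHeight₁ _
      have hP : (0 : ℝ) ≤ ((n : ℝ) + 1) ^ (∑ p, κ p + ∑ i, κ' i) := by positivity
      have hone : ∀ l, logHeight₁ (y (q * n + i) l) ≤
          ((C (⟨i, hi⟩, l) + ∑ i, C' i : ℕ) : ℝ) * ((n : ℝ) + 1) ^ (∑ p, κ p + ∑ i, κ' i) +
          ((D (⟨i, hi⟩, l) + ∑ i, D' i : ℕ) : ℝ) * ∑ l, logHeight₁ (y n l) := by
        intro l
        obtain ⟨h4, h5⟩ := h3 n hn ⟨i, hi⟩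
        have h6 : y (q * n + i) l = (∑ e ∈ E, a ⟨i, hi⟩ l e n * ∏ l, y n l ^ e l) *
            (∑ e ∈ E, b ⟨i, hi⟩ e n * ∏ l, y n l ^ e l)⁻¹ := by
          rw [← h5 l, mul_inv_cancel_right₀ h4]
        rw [h6]
        have h7 := hC (⟨i, hi⟩, l) n (y n)
        have h8 := hC' ⟨i, hi⟩ n (y n)
        have h9 : (C (⟨i, hi⟩, l) : ℝ) * ((n : ℝ) + 1) ^ κ (⟨i, hi⟩, l) ≤
            C (⟨i, hi⟩, l) * ((n : ℝ) + 1) ^ (∑ p, κ p + ∑ i, κ' i) := by
          refine mul_le_mul_of_nonneg_left (pw_mono n ?_) (Nat.cast_nonneg _)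
          exact (Finset.single_le_sum (f := κ) (fun _ _ => Nat.zero_le _)
            (Finset.mem_univ _)).trans (Nat.le_add_right _ _)
        have h10 : (C' ⟨i, hi⟩ : ℝ) * ((n : ℝ) + 1) ^ κ' ⟨i, hi⟩ ≤
            (∑ i, C' i : ℕ) * ((n : ℝ) + 1) ^ (∑ p, κ p + ∑ i, κ' i) := by
          refine mul_le_mul ?_ (pw_mono n ?_) (by positivity) (Nat.cast_nonneg _)
          · exact_mod_cast Finset.single_le_sum (f := C') (fun _ _ => Nat.zero_le _)
              (Finset.mem_univ _)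
          · exact (Finset.single_le_sum (f := κ') (fun _ _ => Nat.zero_le _)
              (Finset.mem_univ _)).trans (Nat.le_add_left _ _)
        have h11 : (D' ⟨i, hi⟩ : ℝ) * ∑ l, logHeight₁ (y n l) ≤
            (∑ i, D' i : ℕ) * ∑ l, logHeight₁ (y n l) := by
          refine mul_le_mul_of_nonneg_right ?_ hS
          exact_mod_cast Finset.single_le_sum (f := D') (fun _ _ => Nat.zero_le _)
            (Finset.mem_univ _)
        have h12 := logHeight₁_mul_le (∑ e ∈ E, a ⟨i, hi⟩ l e n * ∏ l, y n l ^ e l)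
            (∑ e ∈ E, b ⟨i, hi⟩ e n * ∏ l, y n l ^ e l)⁻¹
        rw [logHeight₁_inv] at h12
        rw [Nat.cast_add, Nat.cast_add, add_mul, add_mul]
        linarith
      refine (Finset.sum_le_sum fun l _ => hone l).trans ?_
      rw [Finset.sum_add_distrib, ← Finset.sum_mul, ← Finset.sum_mul]
      have hsub : ∀ (G : Fin q × Fin r → ℕ) (G' : ℕ), ∑ l, ((G (⟨i, hi⟩, l) + G' : ℕ) : ℝ) ≤
          ((∑ p, G p + r * G' : ℕ) : ℝ) := by
        intro G G'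
        rw [← Nat.cast_sum, Finset.sum_add_distrib, Finset.sum_const, Finset.card_univ,
          Fintype.card_fin, smul_eq_mul, Nat.cast_le]
        refine Nat.add_le_add_right ?_ _
        rw [Fintype.sum_prod_type]
        exact Finset.single_le_sum (f := fun i => ∑ l, G (i, l)) (fun _ _ => Nat.zero_le _)
          (Finset.mem_univ _)
      exact add_le_add (mul_le_mul_of_nonneg_right (hsub C _) hP)
        (mul_le_mul_of_nonneg_right (hsub D _) hS)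
    obtain ⟨C1, κ1, h1⟩ := rec_bound hq
      (H := fun n => ∑ l, logHeight₁ (y n l)) (fun n => Finset.sum_nonneg fun _ _ =>
        zero_le_logHeight₁ _) key
    exact ⟨C1, κ1, fun n => (Finset.single_le_sum (f := fun l => logHeight₁ (y n l))
      (fun _ _ => zero_le_logHeight₁ _) (Finset.mem_univ j)).trans (h1 n)⟩

end Pool.Agent.T6.H45.DR
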