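import Pool.Agent.T6.H45.DR.Hb2
import Pool.Agent.H251R6.SDD.Defs

/-!
The transcendence degree of the function field from the growth of the Hilbert function; the
Hilbert function of a graph.
-/

set_option autoImplicit false

namespace Pool.Agent.T6.H45.DR

open Submodule Finset Pool.Agent.T6.H45.KN MvPolynomial

variable {k R ι : Type} [Field k] [Field R] [Algebra k R] [Fintype ι]

theorem alg_adjoin {τ : Set R} {x : R} (h : IsAlgebraic (Algebra.adjoin k τ) x) :
    IsAlgebraic (IntermediateField.adjoin k τ) x := by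
  obtain ⟨p, hp, hpx⟩ := h
  have hle : Algebra.adjoin k τ ≤ (IntermediateField.adjoin k τ).toSubalgebra :=
    IntermediateField.algebra_adjoin_le_adjoin k τ
  let i : Algebra.adjoin k τ →ₐ[k] (IntermediateField.adjoin k τ).toSubalgebra :=
    Subalgebra.inclusion hle
  have hinj : Function.Injective i.toRingHom := Subalgebra.inclusion_injective hle
  refine ⟨(p.map i.toRingHom : Polynomial (IntermediateField.adjoin k τ)), ?_, ?_⟩
  · exact (Polynomial.map_ne_zero_iff hinj).2 hp
  · rw [← hpx, Polynomial.aeval_def, Polynomial.aeval_def, Polynomial.eval₂_map]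
    rfl

/-- the transcendence degree is at most the growth exponent -/
theorem td (ξ : ι → R) {j0 : ι} (h0 : ξ j0 ≠ 0) {t A : ℕ}
    (hA : ∀ e, Module.finrank k ((homogeneousSubmodule ι k e).map (aeval ξ).toLinearMap) ≤
      A * (e + 1) ^ t) :
    TD k (Set.range fun j => ξ j / ξ j0) t := by
  classical
  obtain ⟨s, hs⟩ := (AlgebraicIndependent.matroid k R).exists_isBasis
    (Set.range fun j => ξ j / ξ j0)
  obtain ⟨hind, hst, halg⟩ := AlgebraicIndependent.matroid_isBasis_iff.1 hs
  have hfin : s.Finite := (Set.finite_range _).subset hst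
  obtain ⟨τ, rfl⟩ : ∃ τ : Finset R, (τ : Set R) = s := ⟨hfin.toFinset, hfin.coe_toFinset⟩
  refine ⟨τ, ?_, fun x hx => alg_adjoin (halg x hx)⟩
  by_contra hcon
  push Not at hcon
  have hidx : ∀ s : τ, ∃ j, (s : R) = ξ j / ξ j0 := fun s => by
    obtain ⟨j, hj⟩ := hst s.2
    exact ⟨j, hj.symm⟩
  choose J hJ using hidx
  have hkey : ∀ m : ℕ, (m + 1) ^ τ.card ≤ A * (τ.card * m + 1) ^ t := by
    intro m
    refine le_trans ?_ (hA (τ.card * m))
    have hind' : AlgebraicIndependent k (fun s : τ => (s : R)) := hind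
    have hinj : Function.Injective (aeval (fun s : τ => (s : R)) : MvPolynomial τ k →ₐ[k] R) := hind'
    have h1 := (basisMonomials τ k).linearIndependent.map' (aeval (fun s : τ => (s : R))).toLinearMap
      (LinearMap.ker_eq_bot.2 hinj)
    let φ : (τ → Fin (m + 1)) → (τ →₀ ℕ) := fun e => Finsupp.equivFunOnFinite.symm fun s => (e s : ℕ)
    have hφ : Function.Injective φ := by
      intro e e' h
      funext s
      have := DFunLike.congr_fun h s
      exact Fin.ext this
    have h2 := h1.comp φ hφ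
    have hval : ∀ e : τ → Fin (m + 1),
        (((aeval (fun s : τ => (s : R))).toLinearMap ∘ (basisMonomials τ k)) ∘ φ) e =
          ∏ s : τ, (s : R) ^ (e s : ℕ) := by
      intro e
      simp only [Function.comp, coe_basisMonomials, AlgHom.toLinearMap_apply, aeval_monomial,
        map_one, one_mul]
      rw [Finsupp.prod_fintype _ _ (fun s => pow_zero _)]
      rfl
    have h3 : LinearIndependent k fun e : τ → Fin (m + 1) => ∏ s : τ, (s : R) ^ (e s : ℕ) := by
      have h4 : (fun e : τ → Fin (m + 1) => ∏ s : τ, (s : R) ^ (e s : ℕ)) =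
          (((aeval (fun s : τ => (s : R))).toLinearMap ∘ (basisMonomials τ k)) ∘ φ) :=
        (funext hval).symm
      rw [h4]
      exact h2
    -- multiply by a power of `ξ j0`
    let W := (homogeneousSubmodule ι k (τ.card * m)).map (aeval ξ).toLinearMap
    have hWfd : FiniteDimensional k W :=
      Module.Finite.iff_fg.2 ((homogeneousSubmodule_fg (σ := ι) k _).map _)
    have hmem : ∀ e : τ → Fin (m + 1),
        ξ j0 ^ (τ.card * m) * ∏ s : τ, (s : R) ^ (e s : ℕ) ∈ W := by
      intro e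
      have hsum : ∑ s : τ, (e s : ℕ) ≤ τ.card * m := by
        calc ∑ s : τ, (e s : ℕ) ≤ ∑ _s : τ, m := Finset.sum_le_sum fun s _ => by
              have := (e s).2; omega
          _ = τ.card * m := by simp
      refine ⟨X j0 ^ (τ.card * m - ∑ s : τ, (e s : ℕ)) * ∏ s : τ, X (J s) ^ (e s : ℕ), ?_, ?_⟩
      · rw [SetLike.mem_coe, mem_homogeneousSubmodule]
        have h5 : (∏ s : τ, (X (J s) : MvPolynomial ι k) ^ (e s : ℕ)).IsHomogeneous
            (∑ s : τ, (e s : ℕ)) := by
          refine IsHomogeneous.prod _ _ _ fun s _ => ?_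
          have := (isHomogeneous_X k (J s)).pow (e s : ℕ)
          rwa [one_mul] at this
        have h6 := ((isHomogeneous_X k j0).pow (τ.card * m - ∑ s : τ, (e s : ℕ))).mul h5
        rw [one_mul, Nat.sub_add_cancel hsum] at h6
        exact h6
      · rw [AlgHom.toLinearMap_apply, map_mul, map_pow, map_prod, aeval_X]
        simp only [map_pow, aeval_X]
        have h7 : ∏ s : τ, (s : R) ^ (e s : ℕ) * ξ j0 ^ (e s : ℕ) = ∏ s : τ, ξ (J s) ^ (e s : ℕ) := by
          refine Finset.prod_congr rfl fun s _ => ?_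
          rw [hJ s, ← mul_pow, div_mul_cancel₀ _ h0]
        rw [← h7, Finset.prod_mul_distrib, Finset.prod_pow_eq_pow_sum]
        have h8 : ξ j0 ^ (τ.card * m) = ξ j0 ^ (τ.card * m - ∑ s : τ, (e s : ℕ)) *
            ξ j0 ^ (∑ s : τ, (e s : ℕ)) := by
          rw [← pow_add, Nat.sub_add_cancel hsum]
        rw [h8]
        ring
    let f : R →ₗ[k] R := LinearMap.mulLeft k (ξ j0 ^ (τ.card * m))
    have hf : LinearMap.ker f = ⊥ := by
      rw [LinearMap.ker_eq_bot]
      intro x y hxy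
      exact mul_left_cancel₀ (pow_ne_zero _ h0) hxy
    have h5 := h3.map' f hf
    have h6 : LinearIndependent k fun e : τ → Fin (m + 1) =>
        (⟨ξ j0 ^ (τ.card * m) * ∏ s : τ, (s : R) ^ (e s : ℕ), hmem e⟩ : W) := by
      refine LinearIndependent.of_comp W.subtype ?_
      exact h5
    have h7 := h6.fintype_card_le_finrank
    simpa using h7
  have hτ1 : 1 ≤ τ.card := by omega
  have h1 := hkey (A * τ.card ^ t)
  set m := A * τ.card ^ t with hm
  have h2 : (τ.card * m + 1) ^ t ≤ τ.card ^ t * (m + 1) ^ t := by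
    rw [← mul_pow]
    refine Nat.pow_le_pow_left ?_ _
    nlinarith
  have h3 : (m + 1) ^ (t + 1) ≤ (m + 1) ^ τ.card := Nat.pow_le_pow_right (by omega) (by omega)
  have h4 : (m + 1) ^ (t + 1) ≤ m * (m + 1) ^ t := by
    calc (m + 1) ^ (t + 1) ≤ (m + 1) ^ τ.card := h3
      _ ≤ A * (τ.card * m + 1) ^ t := h1
      _ ≤ A * (τ.card ^ t * (m + 1) ^ t) := Nat.mul_le_mul_left _ h2
      _ = m * (m + 1) ^ t := by rw [hm]; ring
  rw [pow_succ, mul_comm] at h4
  have h5 := Nat.le_of_mul_le_mul_right h4 (Nat.pow_pos (by omega))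
  omega

/-- the values of the forms of bidegree `(b, a)` at `(ξ, η)` -/
noncomputable def BV (k : Type) {R ι : Type} [Field k] [Field R] [Algebra k R] (ξ η : ι → R)
    (b a : ℕ) : Submodule k R :=
  (weightedHomogeneousSubmodule k (Pool.Agent.H251R6.SDD.biWeight ι) (b, a)).map
    (aeval (Sum.elim ξ η)).toLinearMap

theorem bv_le (ξ η : ι → R) (b a : ℕ) :
    BV k ξ η b a ≤ (span k (Set.range ξ)) ^ b * (span k (Set.range η)) ^ a := by
  classical
  rintro _ ⟨Q, hQ, rfl⟩
  rw [AlgHom.toLinearMap_apply, aeval_def, eval₂_eq']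
  refine Submodule.sum_mem _ fun ν hν => ?_
  rw [← Algebra.smul_def]
  refine Submodule.smul_mem _ _ ?_
  have h1 : Finsupp.weight (Pool.Agent.H251R6.SDD.biWeight ι) ν = (b, a) :=
    hQ (mem_support_iff.1 hν)
  rw [Finsupp.weight_apply, Finsupp.sum_fintype _ _ (by simp)] at h1
  have hb : ∑ i, ν (Sum.inl i) = b := by
    have := congrArg Prod.fst h1
    rw [Prod.fst_sum, Fintype.sum_sum_type] at this
    simpa [Pool.Agent.H251R6.SDD.biWeight] using this
  have ha : ∑ i, ν (Sum.inr i) = a := by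
    have := congrArg Prod.snd h1
    rw [Prod.snd_sum, Fintype.sum_sum_type] at this
    simpa [Pool.Agent.H251R6.SDD.biWeight] using this
  rw [Fintype.prod_sum_type]
  refine mul_mem_mul ?_ ?_
  · simp only [Sum.elim_inl]
    rw [← hb]
    have h3 : ∑ i, ν (Sum.inl i) = ∑ i, ν (Sum.inl i) * 1 := by simp
    rw [h3]
    refine prod_pw _ _ _ fun i _ => pw _ ?_
    rw [pow_one]
    exact subset_span ⟨i, rfl⟩
  · simp only [Sum.elim_inr]
    rw [← ha]
    have h3 : ∑ i, ν (Sum.inr i) = ∑ i, ν (Sum.inr i) * 1 := by simp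
    rw [h3]
    refine prod_pw _ _ _ fun i _ => pw _ ?_
    rw [pow_one]
    exact subset_span ⟨i, rfl⟩

theorem scale_pow (ξ : ι → R) (c : R) (b : ℕ) : ∀ x ∈ (span k (Set.range ξ)) ^ b,
    c ^ b * x ∈ (span k (Set.range fun j => c * ξ j)) ^ b := by
  have h1 : ∀ x ∈ span k (Set.range ξ), c * x ∈ (span k (Set.range fun j => c * ξ j)) ^ 1 := by
    intro x hx
    rw [pow_one]
    refine Submodule.span_induction ?_ ?_ ?_ ?_ hx
    · rintro _ ⟨j, rfl⟩; exact subset_span ⟨j, rfl⟩
    · rw [mul_zero]; exact zero_mem _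
    · intro x y _ _ hx hy; rw [mul_add]; exact add_mem hx hy
    · intro a x _ hx; rw [mul_smul_comm]; exact smul_mem _ _ hx
  intro x hx
  have := mul_pow_mem h1 b x hx
  rwa [one_mul] at this

/-- **The Hilbert function of a graph.** -/
theorem bound_bv {S : Finset R} {t c C : ℕ}
    (hC : ∀ (M : Submodule k R) (w : R) (c : ℕ), FiniteDimensional k M → (1 : R) ∈ M → w ≠ 0 →
      (∀ x ∈ M, w * x ∈ (MSp k S) ^ c) → TD k (M : Set R) t →
      ∀ E, Module.finrank k (M ^ E : Submodule k R) ≤ C * (c * E + 1) ^ t)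
    (ξ η : ι → R) (hξ : ∀ j, ξ j ∈ (MSp k S) ^ c) (hη : ∀ j, η j ∈ (MSp k S) ^ c)
    {j0 i0 : ι} (h0 : ξ j0 ≠ 0) (h1 : η i0 ≠ 0)
    (hmem : ∀ i, η i / η i0 ∈ IntermediateField.adjoin k (Set.range fun j => ξ j / ξ j0))
    (hTD : TD k (Set.range fun j => ξ j / ξ j0) t) (b a : ℕ) :
    Module.finrank k (BV k ξ η b a) ≤ C * (2 * c * (a + b) + 1) ^ t := by
  classical
  let M1 : Submodule k R := span k (Set.range fun j => (ξ j0)⁻¹ * ξ j)
  let M2 : Submodule k R := span k (Set.range fun j => (η i0)⁻¹ * η j)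
  have hM1 : (1 : R) ∈ M1 := subset_span ⟨j0, inv_mul_cancel₀ h0⟩
  have hM2 : (1 : R) ∈ M2 := subset_span ⟨i0, inv_mul_cancel₀ h1⟩
  have fg1 : M1.FG := Submodule.fg_span (Set.finite_range _)
  have fg2 : M2.FG := Submodule.fg_span (Set.finite_range _)
  have hM : (1 : R) ∈ M1 * M2 := by
    have := mul_mem_mul hM1 hM2
    rwa [one_mul] at this
  have e1 : ∀ x ∈ M1, ξ j0 * x ∈ (MSp k S) ^ c := by
    intro x hx
    refine Submodule.span_induction ?_ ?_ ?_ ?_ hx
    · rintro _ ⟨j, rfl⟩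
      change ξ j0 * ((ξ j0)⁻¹ * ξ j) ∈ _
      rw [mul_inv_cancel_left₀ h0]; exact hξ j
    · rw [mul_zero]; exact zero_mem _
    · intro x y _ _ hx hy; rw [mul_add]; exact add_mem hx hy
    · intro a x _ hx; rw [mul_smul_comm]; exact smul_mem _ _ hx
  have e2 : ∀ x ∈ M2, η i0 * x ∈ (MSp k S) ^ c := by
    intro x hx
    refine Submodule.span_induction ?_ ?_ ?_ ?_ hx
    · rintro _ ⟨j, rfl⟩
      change η i0 * ((η i0)⁻¹ * η j) ∈ _
      rw [mul_inv_cancel_left₀ h1]; exact hη j
    · rw [mul_zero]; exact zero_mem _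
    · intro x y _ _ hx hy; rw [mul_add]; exact add_mem hx hy
    · intro a x _ hx; rw [mul_smul_comm]; exact smul_mem _ _ hx
  have e3 : ∀ x ∈ M1 * M2, (ξ j0 * η i0) * x ∈ (MSp k S) ^ (2 * c) := by
    intro x hx
    refine Submodule.mul_induction_on hx (fun u hu v hv => ?_) (fun u v hu hv => ?_)
    · rw [show ξ j0 * η i0 * (u * v) = (ξ j0 * u) * (η i0 * v) by ring]
      exact mm (by ring) (e1 u hu) (e2 v hv)
    · rw [mul_add]; exact add_mem hu hv
  have e4 : TD k ((M1 * M2 : Submodule k R) : Set R) t := by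
    obtain ⟨τ, hτ, halg⟩ := hTD
    refine ⟨τ, hτ, fun x hx => ?_⟩
    refine alg_trans halg ?_
    have h2 : x ∈ IntermediateField.adjoin k (Set.range fun j => ξ j / ξ j0) := by
      refine Submodule.mul_induction_on hx (fun u hu v hv => ?_) (fun u v hu hv => add_mem hu hv)
      refine mul_mem ?_ ?_
      · refine Submodule.span_induction ?_ (zero_mem _) (fun x y _ _ hx hy => add_mem hx hy)
          (fun a x _ hx => ?_) hu
        · rintro _ ⟨j, rfl⟩
          refine IntermediateField.subset_adjoin k _ ⟨j, ?_⟩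
          change ξ j / ξ j0 = (ξ j0)⁻¹ * ξ j
          rw [div_eq_inv_mul]
        · exact IntermediateField.smul_mem _ hx
      · refine Submodule.span_induction ?_ (zero_mem _) (fun x y _ _ hx hy => add_mem hx hy)
          (fun a x _ hx => ?_) hv
        · rintro _ ⟨j, rfl⟩
          have := hmem j
          rwa [div_eq_inv_mul] at this
        · exact IntermediateField.smul_mem _ hx
    exact isAlgebraic_algebraMap
      (⟨x, h2⟩ : IntermediateField.adjoin k (Set.range fun j => ξ j / ξ j0))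
  have e5 := hC (M1 * M2) (ξ j0 * η i0) (2 * c) (Module.Finite.iff_fg.2 (fg1.mul fg2)) hM
    (mul_ne_zero h0 h1) e3 e4 (a + b)
  refine le_trans ?_ e5
  have hfd : FiniteDimensional k ((M1 * M2) ^ (a + b) : Submodule k R) :=
    Module.Finite.iff_fg.2 ((fg1.mul fg2).pow _)
  refine rank_le_of_mul hfd (w := ((ξ j0)⁻¹) ^ b * ((η i0)⁻¹) ^ a)
    (mul_ne_zero (pow_ne_zero _ (inv_ne_zero h0)) (pow_ne_zero _ (inv_ne_zero h1))) ?_
  intro x hx
  have hx' := bv_le ξ η b a hx
  rw [mul_pow]
  refine Submodule.mul_induction_on hx' (fun u hu v hv => ?_) (fun u v hu hv => ?_)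
  · rw [show (ξ j0)⁻¹ ^ b * (η i0)⁻¹ ^ a * (u * v) = ((ξ j0)⁻¹ ^ b * u) * ((η i0)⁻¹ ^ a * v) by ring]
    exact mul_mem_mul (pm hM1 (by omega) (scale_pow ξ _ b u hu))
      (pm hM2 (by omega) (scale_pow η _ a v hv))
  · rw [mul_add]; exact add_mem hu hv

end Pool.Agent.T6.H45.DR
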