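import Pool.Agent.T6.H45.DR.Sq
import Pool.Agent.T6.H45.DR.Td

/-!
The algebra generated by finitely many germs of sequences, its minimal primes, and the bound for the
Hilbert functions of the graphs.
-/

set_option autoImplicit false

namespace Pool.Agent.T6.H45.DR

open Submodule Finset MvPolynomial Filter
open Pool.Agent.T6.H45.KN (MS one_MS mem_MS MS_mono pm mm pw prod_pw)
open Pool.Agent.H251R6.SDD (biWeight)

variable {k : Type} [Field k]

/-- evaluation of polynomials at the sequences in `S` -/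
noncomputable def evS (S : Finset (ℕ → k)) : MvPolynomial S k →ₐ[k] (ℕ → k) :=
  aeval fun s => (s : ℕ → k)

/-- the polynomials which vanish for all large `m` -/
def IS (S : Finset (ℕ → k)) : Ideal (MvPolynomial S k) where
  carrier := {u | ∀ᶠ m in atTop, evS S u m = 0}
  add_mem' := by
    intro u v hu hv
    filter_upwards [hu, hv] with m h1 h2
    rw [map_add, Pi.add_apply, h1, h2, add_zero]
  zero_mem' := by
    refine Eventually.of_forall fun m => ?_
    rw [map_zero, Pi.zero_apply]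
  smul_mem' := by
    intro c u hu
    filter_upwards [hu] with m h1
    rw [smul_eq_mul, map_mul, Pi.mul_apply, h1, mul_zero]

theorem mem_IS {S : Finset (ℕ → k)} {u : MvPolynomial S k} :
    u ∈ IS S ↔ ∀ᶠ m in atTop, evS S u m = 0 := Iff.rfl

theorem radical_IS (S : Finset (ℕ → k)) : (IS S).radical = IS S := by
  refine le_antisymm ?_ Ideal.le_radical
  rintro u ⟨n, hn⟩
  have h1 := mem_IS.1 hn
  refine mem_IS.2 ?_
  filter_upwards [h1] with m hm
  rw [map_pow, Pi.pow_apply] at hm
  by_contra hne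
  exact pow_ne_zero n hne hm

/-- not all members of a family without common zeros are in a minimal prime -/
theorem nz {S : Finset (ℕ → k)} {P : Ideal (MvPolynomial S k)} (hP : P ∈ (IS S).minimalPrimes)
    {ι : Type} [Finite ι] (u : ι → MvPolynomial S k)
    (h : ∀ᶠ m in atTop, ∃ j, evS S (u j) m ≠ 0) : ∃ j, u j ∉ P := by
  by_contra hcon
  push Not at hcon
  have hP' : P ∈ ((IS S).colon {(1 : MvPolynomial S k)}).minimalPrimes := by
    have h1 : (IS S).colon {(1 : MvPolynomial S k)} = IS S := by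
      ext x
      rw [Submodule.mem_colon_singleton, smul_eq_mul, mul_one]
    rwa [h1]
  obtain ⟨x', hx'⟩ := Submodule.exists_eq_colon_of_mem_minimalPrimes hP'
  have h1 : ∀ᶠ m in atTop, ∀ j, evS S (u j) m * evS S x' m = 0 := by
    rw [eventually_all]
    intro j
    have h2 := hcon j
    rw [hx', Submodule.mem_colon_singleton, smul_eq_mul, mem_IS] at h2
    filter_upwards [h2] with m hm
    rwa [map_mul, Pi.mul_apply] at hm
  have h2 : x' ∈ IS S := by
    rw [mem_IS]
    filter_upwards [h, h1] with m ⟨j, hj⟩ hm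
    exact (mul_eq_zero.1 (hm j)).resolve_left hj
  have h3 : (1 : MvPolynomial S k) ∈ P := by
    rw [hx', Submodule.mem_colon_singleton, one_smul]
    exact h2
  exact hP.1.1.ne_top ((Ideal.eq_top_iff_one P).2 h3)

/-- residue fields -/
theorem exists_fld {S : Finset (ℕ → k)} {P : Ideal (MvPolynomial S k)} (hP : P.IsPrime) :
    ∃ (R : Type) (_ : Field R) (_ : Algebra k R) (π : MvPolynomial S k →ₐ[k] R),
      ∀ u, π u = 0 ↔ u ∈ P := by
  refine ⟨FractionRing (MvPolynomial S k ⧸ P), inferInstance, inferInstance,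
    (IsScalarTower.toAlgHom k (MvPolynomial S k ⧸ P) (FractionRing (MvPolynomial S k ⧸ P))).comp
      (Ideal.Quotient.mkₐ k P), fun u => ?_⟩
  rw [AlgHom.comp_apply, IsScalarTower.coe_toAlgHom', Ideal.Quotient.mkₐ_eq_mk,
    FaithfulSMul.algebraMap_eq_zero_iff, Ideal.Quotient.eq_zero_iff_mem]

/-- the span of `1` and the variables -/
noncomputable def MB (S : Finset (ℕ → k)) : Submodule k (MvPolynomial S k) :=
  span k (insert 1 (Set.range X))

theorem map_MB (S : Finset (ℕ → k)) : (MB S).map (evS S).toLinearMap = MS S := by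
  rw [MB, MS, Submodule.map_span, Set.image_insert_eq]
  congr 1
  rw [AlgHom.toLinearMap_apply, map_one]
  congr 1
  ext x
  constructor
  · rintro ⟨_, ⟨s, rfl⟩, rfl⟩
    rw [AlgHom.toLinearMap_apply, evS, aeval_X]
    exact s.2
  · intro hx
    refine ⟨X ⟨x, hx⟩, ⟨⟨x, hx⟩, rfl⟩, ?_⟩
    rw [AlgHom.toLinearMap_apply, evS, aeval_X]

theorem lift_MS {S : Finset (ℕ → k)} {c : ℕ} {u : ℕ → k} (hu : u ∈ MS S ^ c) :
    ∃ v ∈ (MB S) ^ c, evS S v = u := by
  rw [← map_MB, ← Submodule.map_pow] at hu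
  exact hu

theorem pi_MB {S : Finset (ℕ → k)} {R : Type} [Field R] [Algebra k R] [DecidableEq R]
    (π : MvPolynomial S k →ₐ[k] R) {c : ℕ} {v : MvPolynomial S k} (hv : v ∈ (MB S) ^ c) :
    π v ∈ (MSp k (Finset.univ.image fun s : S => π (X s))) ^ c := by
  have h1 : π v ∈ ((MB S) ^ c).map π.toLinearMap := ⟨v, hv, rfl⟩
  rw [Submodule.map_pow] at h1
  refine (pow_le_pow_left' (?_ : (MB S).map π.toLinearMap ≤ _) c) h1
  rw [MB, Submodule.map_span, Submodule.span_le]
  rintro _ ⟨g, hg, rfl⟩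
  rcases hg with rfl | ⟨s, rfl⟩
  · change π 1 ∈ _
    rw [map_one]
    exact one_MSp _
  · exact mem_MSp (Finset.mem_image.2 ⟨s, Finset.mem_univ _, rfl⟩)

/-- evaluation of a polynomial at polynomials in the sequences -/
theorem evS_aeval {S : Finset (ℕ → k)} {τ : Type} (u : τ → MvPolynomial S k)
    (Q : MvPolynomial τ k) (m : ℕ) :
    evS S (aeval u Q) m = eval (fun j => evS S (u j) m) Q := by
  have h1 : ((Pi.evalAlgHom k (fun _ : ℕ => k) m).comp (evS S)).comp (aeval u) =
      aeval (fun j => evS S (u j) m) := by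
    apply MvPolynomial.algHom_ext
    intro j
    simp
  have h2 := DFunLike.congr_fun h1 Q
  simp only [AlgHom.comp_apply, Pi.evalAlgHom_apply] at h2
  rw [h2]
  exact DFunLike.congr_fun (coe_aeval_eq_eval _) Q

variable {ι : Type} [Fintype ι]

/-- **The bound for the Hilbert functions of the graphs.** -/
theorem core {q : ℕ} {p : Ideal (MvPolynomial ι k)} (hp : p.IsPrime) {x : ℕ → ι → k}
    (hx0 : ∀ m, x m ≠ 0) (hgr : GrF q fun (j : ι) m => x m j)
    (hdense : ∀ (l e : ℕ) (H : MvPolynomial ι k), H.IsHomogeneous e → H ∉ p →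
      ∃ᶠ m in atTop, eval (x (q ^ l * m)) H ≠ 0)
    (hvan : ∀ (e : ℕ) (H : MvPolynomial ι k), H.IsHomogeneous e → H ∈ p → ∀ m, eval (x m) H = 0)
    (t : ℕ) :
    ∃ C K : ℕ, 1 ≤ K ∧ ∀ l n, n < q ^ l → ∀ (e : ℕ) (G : ι → MvPolynomial ι k),
      (∀ i, (G i).IsHomogeneous e) → (∃ i, G i ∉ p) →
      (∀ m i j, eval (x m) (G i) * x (m + n) j = eval (x m) (G j) * x (m + n) i) →
      ∃ (R : Type) (_ : Field R) (_ : Algebra k R) (ξ η : ι → R),
        (∃ j, ξ j ≠ 0) ∧ (∃ i, η i ≠ 0) ∧
        (∀ (e : ℕ) (H : MvPolynomial ι k), H.IsHomogeneous e → (aeval ξ H = 0 ↔ H ∈ p)) ∧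
        (∀ i j, aeval ξ (G i) * η j = aeval ξ (G j) * η i) ∧
        (∀ (b a : ℕ) (Q : MvPolynomial (ι ⊕ ι) k), IsWeightedHomogeneous (biWeight ι) Q (b, a) →
          (∀ m, eval (Sum.elim (x m) (x (m + n))) Q = 0) → aeval (Sum.elim ξ η) Q = 0) ∧
        ((∃ A : ℕ, ∀ e, Module.finrank k ((homogeneousSubmodule ι k e).map (aeval ξ).toLinearMap) ≤
            A * (e + 1) ^ t) →
          ∀ b a, Module.finrank k (BV k ξ η b a) ≤ C * (K ^ l * (a + b) + 1) ^ t) := by
  classical
  obtain ⟨S, C1, K, hK, hS⟩ := hgr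
  -- the minimal primes
  have hfin : (IS S).minimalPrimes.Finite :=
    Ideal.finite_minimalPrimes_of_isNoetherianRing _ (IS S)
  have hfld := fun P : (IS S).minimalPrimes => exists_fld (S := S) P.2.1.1
  choose R iF iA π hπ using hfld
  have hun := fun P : (IS S).minimalPrimes => unif (K := R P) t
    (Finset.univ.image fun s : S => π P (X s)).card k
    (Finset.univ.image fun s : S => π P (X s)) rfl
  choose Cc hCc using hun
  have : Finite (IS S).minimalPrimes := hfin
  have : Fintype (IS S).minimalPrimes := Fintype.ofFinite _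
  refine ⟨(∑ P, Cc P) * (2 * C1 + 1) ^ t, K, hK, fun l n hn e G hG hGp hrep => ?_⟩
  -- the coordinates
  obtain ⟨D, hD, B, hB, hDB⟩ := hS l 0 (Nat.lt_of_le_of_lt (Nat.zero_le _) hn)
  obtain ⟨D', hD', B', hB', hDB'⟩ := hS l n hn
  choose Bt hBt hBt2 using fun j => lift_MS (hB j)
  choose Bt' hBt' hBt2' using fun j => lift_MS (hB' j)
  have hval : ∀ᶠ m in atTop, D m ≠ 0 ∧ (fun j => evS S (Bt j) m) = D m • x (q ^ l * m) := by
    filter_upwards [hDB] with m hm
    refine ⟨hm.1, ?_⟩
    funext j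
    have := hm.2 j
    rw [add_zero] at this
    rw [hBt2, Pi.smul_apply, smul_eq_mul, this]
  have hval' : ∀ᶠ m in atTop, D' m ≠ 0 ∧ (fun j => evS S (Bt' j) m) = D' m • x (q ^ l * m + n) := by
    filter_upwards [hDB'] with m hm
    refine ⟨hm.1, ?_⟩
    funext j
    rw [hBt2', Pi.smul_apply, smul_eq_mul, hm.2 j]
  have hscale : ∀ (e : ℕ) (H : MvPolynomial ι k), H.IsHomogeneous e → ∀ (c : k) (w : ι → k),
      eval (c • w) H = c ^ e * eval w H := by
    intro e H hH c w
    rw [eval_eq', eval_eq', Finset.mul_sum]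
    refine Finset.sum_congr rfl fun α hα => ?_
    have h2 : ∑ a, α a = e := by
      have := hH (mem_support_iff.1 hα)
      rw [← this, Finsupp.weight_apply, Finsupp.sum_fintype _ _ (by simp)]
      simp
    have h3 : ∏ a, (c • w) a ^ α a = c ^ e * ∏ a, w a ^ α a := by
      rw [← h2, ← Finset.prod_pow_eq_pow_sum, ← Finset.prod_mul_distrib]
      exact Finset.prod_congr rfl fun a _ => by rw [Pi.smul_apply, smul_eq_mul, mul_pow]
    rw [h3]; ring
  -- the choice of the minimal prime
  have hex : ∃ P : (IS S).minimalPrimes, ∀ (e : ℕ) (H : MvPolynomial ι k), H.IsHomogeneous e →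
      H ∉ p → aeval Bt H ∉ P.1 := by
    by_contra hcon
    push Not at hcon
    choose e' H' hH' hH'p hH'P using hcon
    have hprod : (∏ P, H' P).IsHomogeneous (∑ P, e' P) := IsHomogeneous.prod _ _ _ fun P _ => hH' P
    have hprodp : ∏ P, H' P ∉ p := by
      intro h
      obtain ⟨P, _, hP⟩ := hp.prod_mem_iff.1 h
      exact hH'p P hP
    have hmem : aeval Bt (∏ P, H' P) ∈ IS S := by
      have h1 : sInf (IS S).minimalPrimes = IS S := Ideal.sInf_minimalPrimes.trans (radical_IS S)
      refine h1.le ?_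
      rw [Ideal.mem_sInf]
      intro P hP
      rw [map_prod]
      rw [← Finset.mul_prod_erase Finset.univ _ (Finset.mem_univ (⟨P, hP⟩ : (IS S).minimalPrimes))]
      exact Ideal.mul_mem_right _ _ (hH'P ⟨P, hP⟩)
    have hfreq := hdense l _ _ hprod hprodp
    refine hfreq ?_
    filter_upwards [mem_IS.1 hmem, hval] with m hm1 hm2
    rw [not_not]
    rw [evS_aeval, hm2.2, hscale _ _ hprod] at hm1
    exact (mul_eq_zero.1 hm1).resolve_left (pow_ne_zero _ hm2.1)
  obtain ⟨P, hPH⟩ := hex
  let _ := iF P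
  let _ := iA P
  let ξ : ι → R P := fun j => π P (Bt j)
  let η : ι → R P := fun j => π P (Bt' j)
  have hπS : ∀ u ∈ IS S, π P u = 0 := fun u hu => (hπ P u).2 (P.2.1.2 hu)
  have haev : ∀ {τ : Type} (u : τ → MvPolynomial S k) (Q : MvPolynomial τ k),
      aeval (fun j => π P (u j)) Q = π P (aeval u Q) := by
    intro τ u Q
    rw [← AlgHom.comp_apply, MvPolynomial.comp_aeval]
  have hker : ∀ (e : ℕ) (H : MvPolynomial ι k), H.IsHomogeneous e → (aeval ξ H = 0 ↔ H ∈ p) := by
    intro e H hH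
    constructor
    · intro h0
      by_contra hHp
      exact hPH e H hH hHp ((hπ P _).1 (by rw [← haev]; exact h0))
    · intro hHp
      change aeval (fun j => π P (Bt j)) H = 0
      rw [haev]
      refine hπS _ (mem_IS.2 ?_)
      filter_upwards [hval] with m hm
      rw [evS_aeval, hm.2, hscale _ _ hH, hvan e H hH hHp, mul_zero]
  have hη : ∃ i, η i ≠ 0 := by
    obtain ⟨i, hi⟩ := nz P.2 Bt' (by
      filter_upwards [hval'] with m hm
      obtain ⟨i, hi⟩ := Function.ne_iff.1 (hx0 (q ^ l * m + n))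
      refine ⟨i, ?_⟩
      have h1 : evS S (Bt' i) m = D' m * x (q ^ l * m + n) i := congrFun hm.2 i
      rw [h1]
      exact mul_ne_zero hm.1 hi)
    exact ⟨i, fun h => hi ((hπ P _).1 h)⟩
  have hξ : ∃ i, ξ i ≠ 0 := by
    obtain ⟨i, hi⟩ := nz P.2 Bt (by
      filter_upwards [hval] with m hm
      obtain ⟨i, hi⟩ := Function.ne_iff.1 (hx0 (q ^ l * m))
      refine ⟨i, ?_⟩
      have h1 : evS S (Bt i) m = D m * x (q ^ l * m) i := congrFun hm.2 i
      rw [h1]
      exact mul_ne_zero hm.1 hi)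
    exact ⟨i, fun h => hi ((hπ P _).1 h)⟩
  have hrel : ∀ i j, aeval ξ (G i) * η j = aeval ξ (G j) * η i := by
    intro i j
    change aeval (fun j => π P (Bt j)) (G i) * π P (Bt' j) =
      aeval (fun j => π P (Bt j)) (G j) * π P (Bt' i)
    rw [haev, haev, ← map_mul, ← map_mul, ← sub_eq_zero, ← map_sub]
    refine hπS _ (mem_IS.2 ?_)
    filter_upwards [hval, hval'] with m hm hm'
    have h1 := congrFun hm'.2 i
    have h2 := congrFun hm'.2 j
    simp only [Pi.smul_apply, smul_eq_mul] at h1 h2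
    rw [map_sub, map_mul, map_mul, Pi.sub_apply, Pi.mul_apply, Pi.mul_apply, evS_aeval, evS_aeval,
      hm.2, hscale _ _ (hG i), hscale _ _ (hG j), h1, h2]
    have h3 := hrep (q ^ l * m) i j
    linear_combination (D m ^ e * D' m) * h3
  refine ⟨R P, iF P, iA P, ξ, η, hξ, hη, hker, hrel, fun b a Q hQ hQ0 => ?_, ?_⟩
  · have h1 : Sum.elim ξ η = fun j => π P (Sum.elim Bt Bt' j) := by
      funext j
      rcases j with j | j <;> rfl
    rw [h1, haev]
    refine hπS _ (mem_IS.2 ?_)
    filter_upwards [hval, hval'] with m hm hm'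
    rw [evS_aeval]
    have h2 : (fun j => evS S (Sum.elim Bt Bt' j) m) =
        Sum.elim (D m • x (q ^ l * m)) (D' m • x (q ^ l * m + n)) := by
      rw [← hm.2, ← hm'.2]
      funext j
      rcases j with j | j <;> rfl
    rw [h2]
    have h3 : eval (Sum.elim (D m • x (q ^ l * m)) (D' m • x (q ^ l * m + n))) Q =
        D m ^ b * D' m ^ a * eval (Sum.elim (x (q ^ l * m)) (x (q ^ l * m + n))) Q := by
      rw [eval_eq', eval_eq', Finset.mul_sum]
      refine Finset.sum_congr rfl fun ν hν => ?_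
      have h4 : Finsupp.weight (biWeight ι) ν = (b, a) := hQ (mem_support_iff.1 hν)
      rw [Finsupp.weight_apply, Finsupp.sum_fintype _ _ (by simp)] at h4
      have hb : ∑ i, ν (Sum.inl i) = b := by
        have := congrArg Prod.fst h4
        rw [Prod.fst_sum, Fintype.sum_sum_type] at this
        simpa [biWeight] using this
      have ha : ∑ i, ν (Sum.inr i) = a := by
        have := congrArg Prod.snd h4
        rw [Prod.snd_sum, Fintype.sum_sum_type] at this
        simpa [biWeight] using this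
      rw [Fintype.prod_sum_type, Fintype.prod_sum_type]
      simp only [Sum.elim_inl, Sum.elim_inr, Pi.smul_apply, smul_eq_mul, mul_pow,
        Finset.prod_mul_distrib, Finset.prod_pow_eq_pow_sum, hb, ha]
      ring
    rw [h3, hQ0, mul_zero]
  · rintro ⟨A, hA⟩ b a
    obtain ⟨j0, hj0⟩ := hξ
    obtain ⟨i0, hi0⟩ := hη
    have hmem : ∀ i, η i / η i0 ∈ IntermediateField.adjoin k (Set.range fun j => ξ j / ξ j0) := by
      obtain ⟨i1, hi1⟩ := hGp
      have hG1 : aeval ξ (G i1) ≠ 0 := fun h => hi1 ((hker e _ (hG i1)).1 h)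
      have hG0 : aeval ξ (G i0) ≠ 0 := by
        intro h
        have := hrel i1 i0
        rw [h, zero_mul] at this
        exact (mul_ne_zero hG1 hi0) this
      intro i
      have h1 : η i / η i0 = aeval (fun j => ξ j / ξ j0) (G i) / aeval (fun j => ξ j / ξ j0) (G i0) := by
        have h2 : ∀ i, aeval (fun j => ξ j / ξ j0) (G i) = (ξ j0)⁻¹ ^ e * aeval ξ (G i) := by
          intro i
          have h3 : (fun j => ξ j / ξ j0) = fun j => (ξ j0)⁻¹ * ξ j := by
            funext j
            rw [div_eq_inv_mul]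
          rw [h3, aeval_def, aeval_def, eval₂_eq', eval₂_eq', Finset.mul_sum]
          refine Finset.sum_congr rfl fun α hα => ?_
          have h4 : ∑ a, α a = e := by
            have := hG i (mem_support_iff.1 hα)
            rw [← this, Finsupp.weight_apply, Finsupp.sum_fintype _ _ (by simp)]
            simp
          have h5 : ∏ a, ((ξ j0)⁻¹ * ξ a) ^ α a = (ξ j0)⁻¹ ^ e * ∏ a, ξ a ^ α a := by
            rw [← h4, ← Finset.prod_pow_eq_pow_sum, ← Finset.prod_mul_distrib]
            exact Finset.prod_congr rfl fun a _ => mul_pow _ _ _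
          rw [h5]; ring
        rw [h2, h2, mul_div_mul_left _ _ (pow_ne_zero _ (inv_ne_zero hj0)),
          div_eq_div_iff hi0 hG0, mul_comm, hrel i i0, mul_comm]
      rw [h1]
      refine div_mem ?_ ?_
      · exact IntermediateField.algebra_adjoin_le_adjoin k _ (by
          rw [Algebra.adjoin_range_eq_range_aeval]
          exact ⟨G i, rfl⟩)
      · exact IntermediateField.algebra_adjoin_le_adjoin k _ (by
          rw [Algebra.adjoin_range_eq_range_aeval]
          exact ⟨G i0, rfl⟩)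
    have h5 := bound_bv (k := k) (hCc P) ξ η (fun j => pi_MB (π P) (hBt j))
      (fun j => pi_MB (π P) (hBt' j)) hj0 hi0 hmem (td ξ hj0 hA) b a
    refine h5.trans ?_
    have h6 : Cc P ≤ ∑ P, Cc P := Finset.single_le_sum (f := Cc) (fun _ _ => Nat.zero_le _)
      (Finset.mem_univ P)
    have h7 : 2 * (C1 * K ^ l) * (a + b) + 1 ≤ (2 * C1 + 1) * (K ^ l * (a + b) + 1) := by
      nlinarith [Nat.zero_le (K ^ l * (a + b)), Nat.zero_le C1]
    calc Cc P * (2 * (C1 * K ^ l) * (a + b) + 1) ^ t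
        ≤ (∑ P, Cc P) * ((2 * C1 + 1) * (K ^ l * (a + b) + 1)) ^ t :=
          Nat.mul_le_mul h6 (Nat.pow_le_pow_left h7 _)
      _ = _ := by rw [mul_pow]; ring

end Pool.Agent.T6.H45.DR
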