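import Pool.Agent.T6.H45.DR.Dn

/-!
The Hilbert functions of the graphs of the iterates, in terms of forms.
-/

set_option autoImplicit false

namespace Pool.Agent.T6.H45.DR

open MvPolynomial Filter
open Pool.Agent.TH8.OR
open Pool.Agent.H251R6.SDD (biWeight)

variable {k : Type} [Field k] {N : ℕ}
variable {p : Ideal (MvPolynomial (Fin (N + 1)) k)} {x : ℕ → Fin (N + 1) → k}

/-- the dimension of the space of the forms of degree `e` modulo `p` -/
noncomputable def hX (p : Ideal (MvPolynomial (Fin (N + 1)) k)) (e : ℕ) : ℕ :=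
  Module.finrank k ((homogeneousSubmodule (Fin (N + 1)) k e).map
    (Ideal.Quotient.mkₐ k p).toLinearMap)

/-- the dimension of the space of the forms `Q(X, G(X))` modulo `p`, `Q` of bidegree `(b, a)` -/
noncomputable def hG (p : Ideal (MvPolynomial (Fin (N + 1)) k))
    (G : Fin (N + 1) → MvPolynomial (Fin (N + 1)) k) (b a : ℕ) : ℕ :=
  Module.finrank k ((weightedHomogeneousSubmodule k (biWeight (Fin (N + 1))) (b, a)).map
    ((Ideal.Quotient.mkₐ k p).comp (aeval (Sum.elim X G))).toLinearMap)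

theorem fd_BV {R : Type} [Field R] [Algebra k R] (ξ η : Fin (N + 1) → R) (b a : ℕ) :
    FiniteDimensional k (BV k ξ η b a) := by
  have h1 : FiniteDimensional k ((Submodule.span k (Set.range ξ)) ^ b *
      (Submodule.span k (Set.range η)) ^ a : Submodule k R) := by
    refine Module.Finite.iff_fg.2 ?_
    exact ((Submodule.fg_span (Set.finite_range _)).pow _).mul
      ((Submodule.fg_span (Set.finite_range _)).pow _)
  exact Submodule.finiteDimensional_of_le (bv_le ξ η b a)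

theorem aeval_bi {R : Type} [Field R] [Algebra k R] (ξ η : Fin (N + 1) → R) (γ : R) {b a : ℕ}
    {Q : MvPolynomial (Fin (N + 1) ⊕ Fin (N + 1)) k}
    (hQ : IsWeightedHomogeneous (biWeight (Fin (N + 1))) Q (b, a)) :
    aeval (Sum.elim ξ fun j => γ * η j) Q = γ ^ a * aeval (Sum.elim ξ η) Q := by
  rw [aeval_def, aeval_def, eval₂_eq', eval₂_eq', Finset.mul_sum]
  refine Finset.sum_congr rfl fun ν hν => ?_
  have h4 : Finsupp.weight (biWeight (Fin (N + 1))) ν = (b, a) := hQ (mem_support_iff.1 hν)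
  rw [Finsupp.weight_apply, Finsupp.sum_fintype _ _ (by simp)] at h4
  have ha : ∑ i, ν (Sum.inr i) = a := by
    have := congrArg Prod.snd h4
    rw [Prod.snd_sum, Fintype.sum_sum_type] at this
    simpa [biWeight] using this
  rw [Fintype.prod_sum_type, Fintype.prod_sum_type]
  simp only [Sum.elim_inl, Sum.elim_inr, mul_pow, Finset.prod_mul_distrib,
    Finset.prod_pow_eq_pow_sum, ha]
  ring

theorem sb_hom {G : Fin (N + 1) → MvPolynomial (Fin (N + 1)) k} {e : ℕ}
    (hG : ∀ i, (G i).IsHomogeneous e) {b a : ℕ} {Q : MvPolynomial (Fin (N + 1) ⊕ Fin (N + 1)) k}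
    (hQ : IsWeightedHomogeneous (biWeight (Fin (N + 1))) Q (b, a)) :
    (aeval (Sum.elim X G) Q).IsHomogeneous (b + e * a) := by
  rw [aeval_def, eval₂_eq']
  refine IsHomogeneous.sum _ _ _ fun ν hν => ?_
  have h4 : Finsupp.weight (biWeight (Fin (N + 1))) ν = (b, a) := hQ (mem_support_iff.1 hν)
  rw [Finsupp.weight_apply, Finsupp.sum_fintype _ _ (by simp)] at h4
  have hb : ∑ i, ν (Sum.inl i) = b := by
    have := congrArg Prod.fst h4
    rw [Prod.fst_sum, Fintype.sum_sum_type] at this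
    simpa [biWeight] using this
  have ha : ∑ i, ν (Sum.inr i) = a := by
    have := congrArg Prod.snd h4
    rw [Prod.snd_sum, Fintype.sum_sum_type] at this
    simpa [biWeight] using this
  have h2 : (∏ i, (Sum.elim X G i : MvPolynomial (Fin (N + 1)) k) ^ ν i).IsHomogeneous
      (b + e * a) := by
    rw [Fintype.prod_sum_type, ← hb, ← ha, Finset.mul_sum]
    refine IsHomogeneous.mul ?_ ?_
    · refine IsHomogeneous.prod _ _ _ (fun i _ => ?_)
      have := (isHomogeneous_X k i).pow (ν (Sum.inl i))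
      rwa [one_mul] at this
    · refine IsHomogeneous.prod _ _ _ (fun i _ => ?_)
      exact (hG i).pow _
  have h3 := (isHomogeneous_C (Fin (N + 1)) (coeff ν Q)).mul h2
  rwa [zero_add] at h3

/-- the map `Q ↦ Q(ξ, η)` has the same kernel as `Q ↦ Q(X, G(X))` modulo `p` -/
theorem ker_le {R : Type} [Field R] [Algebra k R] {ξ η : Fin (N + 1) → R} {e : ℕ}
    {G : Fin (N + 1) → MvPolynomial (Fin (N + 1)) k} (hG : ∀ i, (G i).IsHomogeneous e)
    (hη : ∃ i, η i ≠ 0)
    (hker : ∀ (e : ℕ) (H : MvPolynomial (Fin (N + 1)) k), H.IsHomogeneous e →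
      (aeval ξ H = 0 ↔ H ∈ p))
    (hrel : ∀ i j, aeval ξ (G i) * η j = aeval ξ (G j) * η i) {b a : ℕ}
    {Q : MvPolynomial (Fin (N + 1) ⊕ Fin (N + 1)) k}
    (hQ : IsWeightedHomogeneous (biWeight (Fin (N + 1))) Q (b, a))
    (h0 : aeval (Sum.elim ξ η) Q = 0) : aeval (Sum.elim X G) Q ∈ p := by
  rw [← hker _ _ (sb_hom hG hQ)]
  obtain ⟨i0, hi0⟩ := hη
  have h1 : aeval ξ (aeval (Sum.elim X G) Q) =
      aeval (Sum.elim ξ fun j => (aeval ξ (G i0) / η i0) * η j) Q := by
    rw [← AlgHom.comp_apply, comp_aeval]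
    congr 2
    funext j
    rcases j with j | j
    · simp
    · simp only [Sum.elim_inr]
      rw [div_mul_eq_mul_div, eq_div_iff hi0, hrel i0 j]
  rw [h1, aeval_bi ξ η _ hQ, h0, mul_zero]

/-- **The degrees of the graphs of the iterates grow polynomially.** -/
theorem graph_bound {q : ℕ} (hq : 2 ≤ q) (hp : p.IsPrime) (hx0 : ∀ m, x m ≠ 0)
    (hdense : ∀ (e : ℕ) (G : MvPolynomial (Fin (N + 1)) k), G.IsHomogeneous e →
      ((∀ m, eval (x m) G = 0) ↔ G ∈ p))
    (hrep : ∀ n, ∃ (e : ℕ) (G : Fin (N + 1) → MvPolynomial (Fin (N + 1)) k),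
      (∀ i, (G i).IsHomogeneous e) ∧
      (∀ (c : ℕ) (H : MvPolynomial (Fin (N + 1)) k), H.IsHomogeneous c → H ∉ p → aeval G H ∉ p) ∧
      ∀ m i j, eval (x m) (G i) * x (m + n) j = eval (x m) (G j) * x (m + n) i)
    (hgr : GrF q fun (j : Fin (N + 1)) m => x m j) {t A : ℕ}
    (hA : ∀ e, hX p e ≤ A * (e + 1) ^ t) :
    ∃ C κ : ℕ, ∀ n e (G : Fin (N + 1) → MvPolynomial (Fin (N + 1)) k),
      (∀ i, (G i).IsHomogeneous e) → (∃ i, G i ∉ p) →
      (∀ m i j, eval (x m) (G i) * x (m + n) j = eval (x m) (G j) * x (m + n) i) →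
      ∀ b a, hG p G b a ≤ C * (n + 1) ^ κ * (a + b + 1) ^ t := by
  obtain ⟨C, K, hK, hcore⟩ := core hp hx0 hgr
    (fun l e H hH hHp => sub_dense hq hp hx0 hdense hrep l e H hH hHp)
    (fun e H hH hHp => (hdense e H hH).2 hHp) t
  refine ⟨C * K ^ t, K * t, fun n e G hGh hGp hrel b a => ?_⟩
  obtain ⟨l, hl, hKl⟩ := pow_bound hq hK n
  obtain ⟨R, _, _, ξ, η, _, hη, hker, hrel', _, hbd⟩ := hcore l n hl e G hGh hGp hrel
  have h1 : ∀ e, Module.finrank k ((homogeneousSubmodule (Fin (N + 1)) k e).map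
      (aeval ξ).toLinearMap) ≤ A * (e + 1) ^ t := by
    intro e
    refine le_trans ?_ (hA e)
    refine rank_le_of_ker _ _ _ (Module.Finite.iff_fg.2 ((homogeneousSubmodule_fg (σ := Fin (N + 1)) k _).map _))
      fun P hP hP0 => ?_
    rw [AlgHom.toLinearMap_apply]
    rw [AlgHom.toLinearMap_apply, Ideal.Quotient.mkₐ_eq_mk, Ideal.Quotient.eq_zero_iff_mem] at hP0
    exact (hker e P hP).2 hP0
  have h2 : hG p G b a ≤ Module.finrank k (BV k ξ η b a) := by
    refine rank_le_of_ker _ _ _ (fd_BV ξ η b a) fun Q hQ hQ0 => ?_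
    rw [AlgHom.toLinearMap_apply, AlgHom.comp_apply, Ideal.Quotient.mkₐ_eq_mk,
      Ideal.Quotient.eq_zero_iff_mem]
    exact ker_le hGh hη hker hrel' hQ hQ0
  refine (h2.trans (hbd ⟨A, h1⟩ b a)).trans ?_
  have h3 : K ^ l * (a + b) + 1 ≤ K * (n + 1) ^ K * (a + b + 1) := by
    have h4 : 1 ≤ K * (n + 1) ^ K := Nat.one_le_iff_ne_zero.2
      (Nat.mul_ne_zero (by omega) (pow_ne_zero _ (by omega)))
    calc K ^ l * (a + b) + 1 ≤ K * (n + 1) ^ K * (a + b) + K * (n + 1) ^ K :=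
          Nat.add_le_add (Nat.mul_le_mul_right _ hKl) h4
      _ = K * (n + 1) ^ K * (a + b + 1) := by ring
  calc C * (K ^ l * (a + b) + 1) ^ t ≤ C * (K * (n + 1) ^ K * (a + b + 1)) ^ t :=
        Nat.mul_le_mul_left _ (Nat.pow_le_pow_left h3 _)
    _ = C * K ^ t * (n + 1) ^ (K * t) * (a + b + 1) ^ t := by
        rw [mul_pow, mul_pow, ← pow_mul]; ring

end Pool.Agent.T6.H45.DR
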